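import Pool.Agent.Work.MP_547619_k4.Defs
import Pool.Agent.Work.MP_547619_kz.B_LOW
import Pool.Agent.Work.MP_547619_co_helper96.Upper

/-!
# MP_547619_co, THEOREM K14: assembly from the last blocks
-/

set_option autoImplicit false

namespace Frag.K4

open SimpleGraph Frag.Kz

/-- The upper bound in terms of the number of edges. -/
theorem upper (hUPP : S_UPP) (ε : ℝ) (hε : 0 < ε) : ∃ k : ℕ, ∀ (n : ℕ) (G : SimpleGraph (Fin n)),
    K14 n G → ∃ S : Finset (Fin n), (S.card : ℝ) ≤ (G.edgeSet.ncard : ℝ) / 6 + ε * n ∧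
      TreeWidthLE (G.induce {v | v ∉ S}) k := by
  obtain ⟨L, hL⟩ := exists_nat_gt (2 / ε)
  have hLpos : (0 : ℝ) < L := lt_trans (by positivity) hL
  have hL1 : 1 ≤ L := by exact_mod_cast hLpos
  refine ⟨2 * L + 7, fun n G hG => ?_⟩
  obtain ⟨S, hS, ht⟩ := hUPP L hL1 n G hG
  refine ⟨S, hS.trans ?_, ht⟩
  have h4 : 2 / (L : ℝ) ≤ ε := by
    rw [div_le_iff₀ hLpos]
    rw [div_lt_iff₀ hε] at hL
    linarith
  have hn : (0 : ℝ) ≤ n := Nat.cast_nonneg n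
  have := mul_le_mul_of_nonneg_right h4 hn
  linarith

/-- The values of `lam` coming from the upper bound. -/
theorem mem_of (hUPP : S_UPP) (ε : ℝ) (hε : 0 < ε) : (1 / 3 + ε : ℝ) ∈
    {lam : ℝ | 0 ≤ lam ∧ ∃ k : ℕ, ∀ (n : ℕ) (G : SimpleGraph (Fin n)), K14 n G →
      ∃ S : Finset (Fin n), (S.card : ℝ) ≤ lam * (n : ℝ) ∧
        TreeWidthLE (G.induce {v | v ∉ S}) k} := by
  refine ⟨by positivity, ?_⟩
  obtain ⟨k, hk⟩ := upper hUPP ε hε
  refine ⟨k, fun n G hG => ?_⟩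
  obtain ⟨S, hS, ht⟩ := hk n G hG
  refine ⟨S, hS.trans ?_, ht⟩
  have h1 : (2 : ℝ) * (G.edgeSet.ncard : ℝ) ≤ 4 * n := by
    exact_mod_cast maxDeg_sub_avgDeg 4 n G hG.1
  linarith

/-- The coefficient of the class is `1/3`. -/
theorem value (hUPP : S_UPP) (hLOK : S_LOK) : fragCoeff K14 = 1 / 3 := by
  apply le_antisymm
  · refine le_of_forall_pos_le_add fun ε hε => ?_
    exact csInf_le ⟨0, fun x hx => hx.1⟩ (mem_of hUPP ε hε)
  · refine le_csInf ⟨_, mem_of hUPP 1 one_pos⟩ ?_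
    rintro lam ⟨_, k, hk⟩
    have h := p_LOW 3 3 (by norm_num) (by norm_num) K14
      (fun n G h => hLOK n G h.1 h.2) lam k hk
    have e : (1 : ℝ) - 1 / ((3 : ℕ) : ℝ) - 1 / ((3 : ℕ) : ℝ) = 1 / 3 := by norm_num
    rw [e] at h
    exact h

end Frag.K4
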