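import Pool.Agent.Work.MP_547619_k4.Defs

/-! # Block AR (typed by helper82): arithmetic -/

set_option autoImplicit false

namespace Frag.K4

open SimpleGraph Frag.Kz

theorem p_AR : S_AR := by
  intro t a b c π πT πX D DT DX A hc hD h1 h2 h3 h4 h5 h6 h7 h8 h9 h10
  obtain ⟨q, hq⟩ := hc
  have hab : 5 * b + 2 * a + π ≤ 5 := by omega
  have hb : b ≤ 1 := by omega
  have ha : a ≤ 2 := by omega
  have hx : (a + b) * (a + b - 1) ≤ 2 := by
    interval_cases b <;> interval_cases a <;> omega
  have ht : t ≤ 12 := by omega
  interval_cases b <;> interval_cases a <;> interval_cases t <;>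
    omega

end Frag.K4
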