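import Pool.Agent.Work.MP_547619_k4.Defs

/-! # Block BAR: the barrier inequality (MP_547619_co, THEOREM K14) -/

set_option autoImplicit false

namespace Frag.K4

open SimpleGraph Frag.Kz

theorem BAR_pr {n : ℕ} (W : Finset (Fin n)) (pts : Fin n → Finset ℕ) (A : Finset ℕ)
    (CC : Finset (Finset ℕ)) (h1 : ∀ C ∈ CC, C ⊆ A)
    (h2 : ∀ C ∈ CC, ∀ C' ∈ CC, C ≠ C' → Disjoint C C') :
    ∑ C ∈ CC, pr W pts C ≤ pr W pts A := by
  unfold pr
  rw [← Finset.card_biUnion]
  · refine Finset.card_le_card ?_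
    intro p hp
    rw [Finset.mem_biUnion] at hp
    obtain ⟨C, hC, hpC⟩ := hp
    rw [Finset.mem_filter] at hpC ⊢
    exact ⟨h1 C hC hpC.1, hpC.2⟩
  · intro C hC C' hC' hne
    exact (h2 C hC C' hC' hne).mono (Finset.filter_subset _ _) (Finset.filter_subset _ _)

theorem p_BAR (h1 : S_CT1) (h2 : S_DSP) (h3 : S_DCS) (h4 : S_CLC) (h5 : S_CHG) : S_BAR := by
  intro K n G W pts col U CC hT hS hU hCC hdis
  have hsub : ∀ v ∈ W, pts v ⊆ PW W pts := fun v hv p hp => by
    unfold PW
    exact Finset.mem_biUnion.2 ⟨v, hv, hp⟩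
  -- all points
  have e1 := h3 n G W pts col (PW W pts) hS (Finset.Subset.refl _)
  have e2 : ∑ v ∈ W, dc G W pts col (PW W pts) v = ed2 G W := by
    unfold ed2
    refine Finset.sum_congr rfl fun v hv => ?_
    have h6 := h2 n G W pts col (PW W pts) hS v hv
    have h7 : gc G W pts col (PW W pts) v = 0 := by
      unfold gc
      rw [Finset.sdiff_eq_empty_iff_subset.2 (hsub v hv), Finset.sum_empty]
    omega
  have hint : ∀ v ∈ W, (pts v ∩ PW W pts).card = 3 := fun v hv => by
    rw [Finset.inter_eq_left.2 (hsub v hv), hS.card3 v hv]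
  have e3 := h1 n W pts (PW W pts) hS.card3
  have e4 : Ej W pts (PW W pts) 3 = W := by
    unfold Ej
    exact Finset.filter_true_of_mem hint
  have e5 : Ej W pts (PW W pts) 2 = ∅ := by
    unfold Ej
    refine Finset.filter_false_of_mem fun v hv => ?_
    rw [hint v hv]
    decide
  have e6 : Ej W pts (PW W pts) 1 = ∅ := by
    unfold Ej
    refine Finset.filter_false_of_mem fun v hv => ?_
    rw [hint v hv]
    decide
  rw [e4, e5, e6, Finset.card_empty] at e3
  -- the points of `U`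
  have u1 := h3 n G W pts col U hS hU
  have u2 := h5 n G W pts col U CC hS hT.deg (fun C hC => ⟨(hCC C hC).2.1, (hCC C hC).2.2.1⟩) hdis
  -- the components
  have c1 : ∑ C ∈ CC, (6 + ∑ v ∈ XX W pts C, gc G W pts col C v) ≤
      ∑ C ∈ CC, (8 * (Ej W pts C 1).card + 4 * (Ej W pts C 2).card + 2 * pr W pts C) :=
    Finset.sum_le_sum fun C hC =>
      h4 K n G W pts col C hT hS (hCC C hC).1 (hCC C hC).2.2.2.1 (hCC C hC).2.2.2.2
  have c2 := BAR_pr W pts (PW W pts) CC (fun C hC => (hCC C hC).1) hdis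
  rw [Finset.sum_add_distrib, Finset.sum_const, smul_eq_mul] at c1
  rw [Finset.sum_add_distrib (f := fun C => 8 * (Ej W pts C 1).card + 4 * (Ej W pts C 2).card),
    ← Finset.mul_sum (f := fun C => pr W pts C)] at c1
  omega

end Frag.K4
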