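import Pool.Agent.Work.MP_547619_k4.Defs

/-! # Block CHG (helper25) -/

set_option autoImplicit false

namespace Frag.K4

open SimpleGraph Frag.Kz

theorem CHG_swap {n : ℕ} (W : Finset (Fin n)) (pts : Fin n → Finset ℕ) (C : Finset ℕ) :
    ∑ p ∈ C, sz W pts p = ∑ v ∈ W, (pts v ∩ C).card := by
  have h1 : ∀ p ∈ C, sz W pts p = ∑ v ∈ W, if p ∈ pts v then 1 else 0 := by
    intro p _
    rw [sz, Finset.card_filter]
  rw [Finset.sum_congr rfl h1, Finset.sum_comm]
  refine Finset.sum_congr rfl fun v _ => ?_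
  rw [← Finset.card_filter]
  congr 1
  ext p
  simp [and_comm]

theorem CHG_X {n : ℕ} {W : Finset (Fin n)} {pts : Fin n → Finset ℕ} {C : Finset ℕ} {v : Fin n}
    (h : v ∈ XX W pts C) : v ∈ W ∧ ∃ p ∈ pts v, p ∈ C := by
  rw [XX, Finset.mem_union, Ej, Ej, Finset.mem_filter, Finset.mem_filter] at h
  have h1 : v ∈ W ∧ 0 < (pts v ∩ C).card := by
    rcases h with ⟨h1, h2⟩ | ⟨h1, h2⟩
    · exact ⟨h1, by omega⟩
    · exact ⟨h1, by omega⟩
  obtain ⟨p, hp⟩ := Finset.card_pos.1 h1.2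
  rw [Finset.mem_inter] at hp
  exact ⟨h1.1, p, hp⟩

theorem p_CHG (hDSP : S_DSP) : S_CHG := by
  classical
  intro n G W pts col U CC hS hdeg hCC hd
  have h0 : ∀ v ∈ W, dc G W pts col U v ≤ 4 * (pts v ∩ U).card := by
    intro v hv
    rcases Nat.eq_zero_or_pos (pts v ∩ U).card with h | h
    · rw [Finset.card_eq_zero] at h
      rw [dc, h, Finset.sum_empty]
      exact Nat.zero_le _
    · have h1 := hDSP n G W pts col U hS v hv
      have h2 := hdeg v hv
      omega
  have hpc : ∀ C ∈ CC, ∀ v ∈ XX W pts C, pts v \ C = pts v ∩ U := by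
    intro C hC v hv
    obtain ⟨hvW, hp⟩ := CHG_X hv
    ext q
    rw [Finset.mem_sdiff, Finset.mem_inter]
    constructor
    · rintro ⟨h1, h2⟩
      rcases (hCC C hC).2 v hvW hp q h1 with h3 | h3
      · exact absurd h3 h2
      · exact ⟨h1, h3⟩
    · rintro ⟨h1, h2⟩
      exact ⟨h1, fun h3 => Finset.disjoint_left.1 (hCC C hC).1 h3 h2⟩
  have hgc : ∀ C ∈ CC, ∑ v ∈ XX W pts C, gc G W pts col C v
      = ∑ v ∈ XX W pts C, dc G W pts col U v := by
    intro C hC
    refine Finset.sum_congr rfl fun v hv => ?_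
    rw [gc, dc, hpc C hC v hv]
  have hcard : ∀ C ∈ CC, ∀ v ∈ XX W pts C, (pts v ∩ U).card + (pts v ∩ C).card = 3 := by
    intro C hC v hv
    rw [← hpc C hC v hv, Finset.card_sdiff_add_card_inter]
    exact hS.card3 v (CHG_X hv).1
  have hE : ∀ C ∈ CC, 8 * (Ej W pts C 1).card + 4 * (Ej W pts C 2).card
      = ∑ v ∈ XX W pts C, 4 * (pts v ∩ U).card := by
    intro C hC
    have hdis : Disjoint (Ej W pts C 1) (Ej W pts C 2) := by
      rw [Finset.disjoint_left]
      intro v h1 h2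
      rw [Ej, Finset.mem_filter] at h1 h2
      omega
    have e1 : ∑ v ∈ Ej W pts C 1, 4 * (pts v ∩ U).card = ∑ v ∈ Ej W pts C 1, 8 := by
      refine Finset.sum_congr rfl fun v hv => ?_
      have h1 := hcard C hC v (Finset.mem_union_left _ hv)
      rw [Ej, Finset.mem_filter] at hv
      omega
    have e2 : ∑ v ∈ Ej W pts C 2, 4 * (pts v ∩ U).card = ∑ v ∈ Ej W pts C 2, 4 := by
      refine Finset.sum_congr rfl fun v hv => ?_
      have h1 := hcard C hC v (Finset.mem_union_right _ hv)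
      rw [Ej, Finset.mem_filter] at hv
      omega
    rw [XX, Finset.sum_union hdis, e1, e2, Finset.sum_const, Finset.sum_const, smul_eq_mul,
      smul_eq_mul]
    ring
  obtain ⟨h, hh⟩ : ∃ h : Fin n → ℕ, ∀ v ∈ W,
      dc G W pts col U v + h v = 4 * (pts v ∩ U).card :=
    ⟨fun v => 4 * (pts v ∩ U).card - dc G W pts col U v, fun v hv => by
      have := h0 v hv
      change dc G W pts col U v + (4 * (pts v ∩ U).card - dc G W pts col U v) = _
      omega⟩
  have hpd : ((CC : Finset (Finset ℕ)) : Set (Finset ℕ)).PairwiseDisjoint (XX W pts) := by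
    intro C hC C' hC' hne
    change Disjoint (XX W pts C) (XX W pts C')
    rw [Finset.disjoint_left]
    intro v hv hv'
    obtain ⟨hvW, p, hp, hpC⟩ := CHG_X hv
    obtain ⟨_, q, hq, hqC⟩ := CHG_X hv'
    rcases (hCC C hC).2 v hvW ⟨p, hp, hpC⟩ q hq with h1 | h1
    · exact Finset.disjoint_left.1 (hd C hC C' hC' hne) h1 hqC
    · exact Finset.disjoint_left.1 (hCC C' hC').1 hqC h1
  have hle : ∑ C ∈ CC, ∑ v ∈ XX W pts C, h v ≤ ∑ v ∈ W, h v := by
    rw [← Finset.sum_biUnion hpd]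
    apply Finset.sum_le_sum_of_subset
    intro v hv
    obtain ⟨C, _, hvC⟩ := Finset.mem_biUnion.1 hv
    exact (CHG_X hvC).1
  have hL : ∑ C ∈ CC, (8 * (Ej W pts C 1).card + 4 * (Ej W pts C 2).card)
      = ∑ C ∈ CC, ∑ v ∈ XX W pts C, gc G W pts col C v + ∑ C ∈ CC, ∑ v ∈ XX W pts C, h v := by
    rw [← Finset.sum_add_distrib]
    refine Finset.sum_congr rfl fun C hC => ?_
    rw [hE C hC, hgc C hC, ← Finset.sum_add_distrib]
    exact Finset.sum_congr rfl fun v hv => (hh v (CHG_X hv).1).symm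
  have hR : 4 * ∑ p ∈ U, sz W pts p = ∑ v ∈ W, dc G W pts col U v + ∑ v ∈ W, h v := by
    rw [CHG_swap, Finset.mul_sum, ← Finset.sum_add_distrib]
    exact Finset.sum_congr rfl fun v hv => (hh v hv).symm
  rw [hL, hR]
  omega

end Frag.K4
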