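import Pool.Agent.Work.MP_547619_k4.Defs

/-!
# Block CHO: owners of the matched points
-/

namespace Frag.K4

open SimpleGraph Frag.Kz

theorem p_CHO : S_CHO := by
  classical
  intro n W pts f h3 hf
  rcases W.eq_empty_or_nonempty with hW | ⟨w0, hw0⟩
  · subst hW
    exact ⟨∅, fun _ => ∅, fun _ => 0, Finset.Subset.refl _, by simp, by simp, by simp [PW]⟩
  have hex : ∀ x : ℕ, ∃ v : Fin n, v ∈ W ∧
      (x ∈ PW W pts → f x ≠ x → x ∈ pts v ∧ f x ∈ pts v) := by
    intro x
    by_cases hx : x ∈ PW W pts ∧ f x ≠ x
    · obtain ⟨v, hv, h1, h2⟩ := (hf x hx.1).2.2 hx.2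
      exact ⟨v, hv, fun _ _ => ⟨h1, h2⟩⟩
    · exact ⟨w0, hw0, fun h1 h2 => absurd ⟨h1, h2⟩ hx⟩
  choose ch hchW hch using hex
  set M : Finset ℕ := (PW W pts).filter (fun x => f x ≠ x) with hM
  have hMf : ∀ x ∈ M, f x ∈ M := by
    intro x hx
    rw [hM, Finset.mem_filter] at hx ⊢
    obtain ⟨h1, h2, -⟩ := hf x hx.1
    refine ⟨h1, ?_⟩
    rw [h2]
    exact fun h => hx.2 h.symm
  have hff : ∀ x ∈ M, f (f x) = x := by
    intro x hx
    rw [hM, Finset.mem_filter] at hx
    exact (hf x hx.1).2.1
  have hfne : ∀ x ∈ M, f x ≠ x := by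
    intro x hx
    rw [hM, Finset.mem_filter] at hx
    exact hx.2
  have hMP : ∀ x ∈ M, x ∈ PW W pts := by
    intro x hx
    rw [hM, Finset.mem_filter] at hx
    exact hx.1
  set g : ℕ → Fin n := fun x => ch (min x (f x)) with hg
  have hgf : ∀ x ∈ M, g (f x) = g x := by
    intro x hx
    simp only [hg]
    rw [hff x hx, min_comm]
  have hgp : ∀ x ∈ M, x ∈ pts (g x) ∧ f x ∈ pts (g x) := by
    intro x hx
    rcases le_total x (f x) with h | h
    · have e : g x = ch x := by simp only [hg]; rw [min_eq_left h]
      rw [e]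
      exact hch x (hMP x hx) (hfne x hx)
    · have e : g x = ch (f x) := by simp only [hg]; rw [min_eq_right h]
      rw [e]
      have h1 := hch (f x) (hMP _ (hMf x hx)) (hfne _ (hMf x hx))
      rw [hff x hx] at h1
      exact ⟨h1.2, h1.1⟩
  set F : Finset (Fin n) := M.image g with hF
  have hFx : ∀ v : Fin n, ∃ x : ℕ, v ∈ F → x ∈ M ∧ g x = v := by
    intro v
    by_cases hv : v ∈ F
    · rw [hF, Finset.mem_image] at hv
      obtain ⟨x, hx, e⟩ := hv
      exact ⟨x, fun _ => ⟨hx, e⟩⟩
    · exact ⟨0, fun h => absurd h hv⟩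
  choose xv hxv using hFx
  set own : Fin n → Finset ℕ := fun v => {xv v, f (xv v)} with hown
  have hFW : F ⊆ W := by
    intro v hv
    rw [hF, Finset.mem_image] at hv
    obtain ⟨x, -, e⟩ := hv
    rw [← e]
    exact hchW _
  have hex2 : ∀ v : Fin n, ∃ z : ℕ, v ∈ F → pts v = insert z (own v) ∧ z ∉ own v := by
    intro v
    by_cases hv : v ∈ F
    · obtain ⟨hx, e⟩ := hxv v hv
      have hp := hgp _ hx
      rw [e] at hp
      have hsub : own v ⊆ pts v := by
        intro y hy
        rw [hown] at hy
        simp only [Finset.mem_insert, Finset.mem_singleton] at hy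
        rcases hy with rfl | rfl
        · exact hp.1
        · exact hp.2
      have hc2 : (own v).card = 2 := by
        rw [hown]
        exact Finset.card_pair (fun h => hfne _ hx h.symm)
      have hc1 : (pts v \ own v).card = 1 := by
        rw [Finset.card_sdiff_of_subset hsub, hc2, h3 v (hFW hv)]
      obtain ⟨z, hz⟩ := Finset.card_eq_one.mp hc1
      refine ⟨z, fun _ => ⟨?_, ?_⟩⟩
      · have e2 : pts v = (pts v \ own v) ∪ own v := by
          rw [Finset.sdiff_union_of_subset hsub]
        rw [e2, hz]
        rfl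
      · have : z ∈ pts v \ own v := by rw [hz]; exact Finset.mem_singleton_self z
        exact (Finset.mem_sdiff.mp this).2
    · exact ⟨0, fun h => absurd h hv⟩
  choose hh hhh using hex2
  have hgo : ∀ v ∈ F, ∀ y ∈ own v, g y = v := by
    intro v hv y hy
    obtain ⟨hx, e⟩ := hxv v hv
    rw [hown] at hy
    simp only [Finset.mem_insert, Finset.mem_singleton] at hy
    rcases hy with rfl | rfl
    · exact e
    · rw [hgf _ hx]; exact e
  refine ⟨F, own, hh, hFW, fun v hv => hhh v hv, ?_, ?_⟩
  · intro u hu v hv huv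
    rw [Finset.disjoint_left]
    intro y hyu hyv
    exact huv ((hgo u hu y hyu).symm.trans (hgo v hv y hyv))
  · have hsub : M ⊆ F.biUnion own := by
      intro x hx
      have hv : g x ∈ F := by
        rw [hF]
        exact Finset.mem_image_of_mem g hx
      rw [Finset.mem_biUnion]
      refine ⟨g x, hv, ?_⟩
      by_contra hno
      obtain ⟨h1, h2⟩ := hgp x hx
      obtain ⟨e, -⟩ := hhh (g x) hv
      rw [e, Finset.mem_insert] at h1 h2
      obtain ⟨hxm, -⟩ := hxv (g x) hv
      have hno2 : f x ∉ own (g x) := by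
        intro h
        rw [hown] at h hno
        simp only [Finset.mem_insert, Finset.mem_singleton, not_or] at h hno
        rcases h with h | h
        · apply hno.2
          rw [← h, hff x hx]
        · apply hno.1
          calc x = f (f x) := (hff x hx).symm
            _ = f (f (xv (g x))) := by rw [h]
            _ = xv (g x) := hff _ hxm
      have e1 : x = hh (g x) := h1.resolve_right hno
      have e2 : f x = hh (g x) := h2.resolve_right hno2
      exact hfne x hx (e2.trans e1.symm)
    have hc : M.card ≤ 2 * F.card := by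
      calc M.card ≤ (F.biUnion own).card := Finset.card_le_card hsub
        _ ≤ ∑ v ∈ F, (own v).card := Finset.card_biUnion_le
        _ ≤ ∑ _v ∈ F, 2 := Finset.sum_le_sum (fun v _ => by
            rw [hown]; exact Finset.card_le_two)
        _ = 2 * F.card := by rw [Finset.sum_const, smul_eq_mul, mul_comm]
    have hsplit : ((PW W pts).filter (fun x => f x = x)).card + M.card = (PW W pts).card := by
      rw [hM]
      exact Finset.card_filter_add_card_filter_not (fun x => f x = x)
    omega

end Frag.K4
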