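import Pool.Agent.Work.MP_547619_k4.Defs

/-! # Block CLC: every small odd component gets at least six (MP_547619_co, THEOREM K14) -/

set_option autoImplicit false

namespace Frag.K4

open SimpleGraph Frag.Kz

theorem CLC_mem {n : ℕ} {W : Finset (Fin n)} {pts : Fin n → Finset ℕ} {C : Finset ℕ} {j : ℕ}
    {v : Fin n} : v ∈ Ej W pts C j ↔ v ∈ W ∧ (pts v ∩ C).card = j := by
  unfold Ej
  exact Finset.mem_filter

theorem CLC_disj {n : ℕ} (W : Finset (Fin n)) (pts : Fin n → Finset ℕ) (C : Finset ℕ) {i j : ℕ}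
    (hij : i ≠ j) : Disjoint (Ej W pts C i) (Ej W pts C j) := by
  rw [Finset.disjoint_left]
  intro v h1 h2
  exact hij ((CLC_mem.1 h1).2.symm.trans (CLC_mem.1 h2).2)

theorem CLC_cardX {n : ℕ} (W : Finset (Fin n)) (pts : Fin n → Finset ℕ) (C : Finset ℕ) :
    (XX W pts C).card = (Ej W pts C 2).card + (Ej W pts C 1).card := by
  unfold XX
  rw [Finset.card_union_of_disjoint (CLC_disj W pts C (by decide))]
  exact Nat.add_comm _ _

theorem CLC_disjZ {n : ℕ} (W : Finset (Fin n)) (pts : Fin n → Finset ℕ) (C : Finset ℕ) :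
    Disjoint (Ej W pts C 3) (XX W pts C) := by
  unfold XX
  rw [Finset.disjoint_union_right]
  exact ⟨CLC_disj W pts C (by decide), CLC_disj W pts C (by decide)⟩

theorem CLC_cardZ {n : ℕ} (W : Finset (Fin n)) (pts : Fin n → Finset ℕ) (C : Finset ℕ) :
    (ZZ W pts C).card =
      (Ej W pts C 3).card + (Ej W pts C 2).card + (Ej W pts C 1).card := by
  unfold ZZ
  rw [Finset.card_union_of_disjoint (CLC_disjZ W pts C), CLC_cardX]
  omega

theorem CLC_subZ {n : ℕ} (W : Finset (Fin n)) (pts : Fin n → Finset ℕ) (C : Finset ℕ) :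
    ZZ W pts C ⊆ W := by
  intro v hv
  unfold ZZ XX at hv
  rw [Finset.mem_union, Finset.mem_union] at hv
  rcases hv with h | h | h
  · exact (CLC_mem.1 h).1
  · exact (CLC_mem.1 h).1
  · exact (CLC_mem.1 h).1

theorem CLC_inZ {n : ℕ} {W : Finset (Fin n)} {pts : Fin n → Finset ℕ} {C : Finset ℕ}
    (h3 : ∀ v ∈ W, (pts v).card = 3) {v : Fin n} (hv : v ∈ W) (hne : (pts v ∩ C).Nonempty) :
    v ∈ ZZ W pts C := by
  have h4 : (pts v ∩ C).card ≤ 3 := by
    rw [← h3 v hv]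
    exact Finset.card_le_card Finset.inter_subset_left
  have h5 : 0 < (pts v ∩ C).card := Finset.card_pos.2 hne
  unfold ZZ XX
  rw [Finset.mem_union, Finset.mem_union]
  have h6 : (pts v ∩ C).card = 3 ∨ (pts v ∩ C).card = 1 ∨ (pts v ∩ C).card = 2 := by omega
  rcases h6 with h | h | h
  · exact Or.inl (CLC_mem.2 ⟨hv, h⟩)
  · exact Or.inr (Or.inl (CLC_mem.2 ⟨hv, h⟩))
  · exact Or.inr (Or.inr (CLC_mem.2 ⟨hv, h⟩))

theorem CLC_sz {n : ℕ} {W : Finset (Fin n)} {pts : Fin n → Finset ℕ} {p : ℕ}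
    (hp : p ∈ PW W pts) : 1 ≤ sz W pts p := by
  unfold PW at hp
  rw [Finset.mem_biUnion] at hp
  obtain ⟨v, hv, hpv⟩ := hp
  unfold sz
  exact Finset.card_pos.2 ⟨v, Finset.mem_filter.2 ⟨hv, hpv⟩⟩

theorem p_CLC (h1 : S_CT1) (h2 : S_DSP) (h3 : S_DCS) (h4 : S_LBD) (h5 : S_NBT) (h6 : S_ESZ)
    (h7 : S_DZZ) (h8 : S_AR) (h9 : S_ST1) (h10 : S_ST2) : S_CLC := by
  intro K n G W pts col C hT hS hCP hodd hK
  by_contra hcon
  rw [not_le] at hcon
  have hct := h1 n W pts C hS.card3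
  have hc1 : C.card ≤ ∑ p ∈ C, sz W pts p := by
    rw [Finset.card_eq_sum_ones]
    exact Finset.sum_le_sum fun p hp => CLC_sz (hCP hp)
  have hc6 : ∑ p ∈ C, sz W pts p ≤ 6 * C.card := by
    rw [Nat.mul_comm, ← smul_eq_mul]
    exact Finset.sum_le_card_nsmul _ _ _ fun p _ => hS.size p
  have hcpos : 0 < C.card := hodd.pos
  have hZne : (ZZ W pts C).Nonempty := by
    obtain ⟨p, hp⟩ := Finset.card_pos.1 hcpos
    have hpp := hCP hp
    unfold PW at hpp
    rw [Finset.mem_biUnion] at hpp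
    obtain ⟨v, hv, hpv⟩ := hpp
    exact ⟨v, CLC_inZ hS.card3 hv ⟨p, Finset.mem_inter.2 ⟨hpv, hp⟩⟩⟩
  have hTZ : Ej W pts C 3 ⊆ ZZ W pts C := by
    unfold ZZ
    exact Finset.subset_union_left
  have hnog := hT.nog (Ej W pts C 3) (ZZ W pts C) hTZ (CLC_subZ W pts C) hZne (by omega)
    (fun t ht u hu hadj => (h5 n G W pts col C hS t ht u hu hadj).1)
  have hesz := h6 n G W pts col C hS
  have hdcs := h3 n G W pts col C hS hCP
  have hdzz := h7 n G W pts col C hS
  obtain ⟨πT, πX, hπ, hlT, hlX, hpi⟩ := h4 n G W pts col C hS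
  have hZ := CLC_cardZ W pts C
  have hX := CLC_cardX W pts C
  -- the sum over `W`
  have hD : ∑ v ∈ W, dc G W pts col C v =
      ∑ v ∈ Ej W pts C 3, dc G W pts col C v + ∑ v ∈ XX W pts C, dc G W pts col C v := by
    rw [← Finset.sum_union (CLC_disjZ W pts C)]
    symm
    refine Finset.sum_subset (CLC_subZ W pts C) fun v hv hvZ => ?_
    unfold dc
    have he : pts v ∩ C = ∅ := by
      by_contra hne
      exact hvZ (CLC_inZ hS.card3 hv (Finset.nonempty_iff_ne_empty.2 hne))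
    rw [he, Finset.sum_empty]
  have hXW : XX W pts C ⊆ W := fun v hv =>
    CLC_subZ W pts C (by unfold ZZ; exact Finset.mem_union_right _ hv)
  have hAX : ∑ v ∈ XX W pts C, gc G W pts col C v + ∑ v ∈ XX W pts C, dc G W pts col C v ≤
      4 * (XX W pts C).card := by
    rw [← Finset.sum_add_distrib, Nat.mul_comm, ← smul_eq_mul]
    refine Finset.sum_le_card_nsmul _ _ _ fun v hv => ?_
    have e1 := h2 n G W pts col C hS v (hXW hv)
    have e2 := hT.deg v (hXW hv)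
    omega
  have hDT : ∑ v ∈ Ej W pts C 3, dc G W pts col C v ≤ 4 * (Ej W pts C 3).card := by
    rw [Nat.mul_comm, ← smul_eq_mul]
    refine Finset.sum_le_card_nsmul _ _ _ fun v hv => ?_
    have e1 := h2 n G W pts col C hS v (CLC_mem.1 hv).1
    have e2 := hT.deg v (CLC_mem.1 hv).1
    omega
  rw [hX] at hAX hesz
  rw [hZ] at hdzz hnog
  rw [hct] at hdcs hc1 hc6
  have hfin := h8 (Ej W pts C 3).card (Ej W pts C 2).card (Ej W pts C 1).card C.card
    (pr W pts C) πT πX (∑ v ∈ W, dc G W pts col C v) (∑ v ∈ Ej W pts C 3, dc G W pts col C v)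
    (∑ v ∈ XX W pts C, dc G W pts col C v) (∑ v ∈ XX W pts C, gc G W pts col C v)
    hodd hD hdcs hc1 hAX hlX hlT hπ hDT hdzz (by omega) (by omega)
  rcases hfin with ⟨e1, e2, e3, e4, e5⟩ | ⟨e1, e2, e3, e4, e5, e6⟩
  · exact h9 n G W pts col C hS e1 e2 e3 e5 (hpi e4)
  · exact h10 n G W pts col C hS e1 e5 e6 (hpi e4)

end Frag.K4
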