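import Pool.Agent.Work.MP_547619_k4.Defs

/-! # Block COL (K14): a colouring of the edges by pieces -/

set_option autoImplicit false

namespace Frag.K4

open SimpleGraph Frag.Kz

lemma COL_mem_np {n : ℕ} {G : SimpleGraph (Fin n)} {W : Finset (Fin n)} {col : Fin n → Fin n → ℕ}
    {v : Fin n} {p : ℕ} : p ∈ np G W col v ↔ ∃ u ∈ W, G.Adj v u ∧ col v u = p := by
  unfold np
  simp only [Finset.mem_image, Finset.mem_filter]
  constructor
  · rintro ⟨u, ⟨h1, h2⟩, h3⟩
    exact ⟨u, h1, h2, h3⟩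
  · rintro ⟨u, h1, h2, h3⟩
    exact ⟨u, ⟨h1, h2⟩, h3⟩

lemma COL_pair {α : Type*} [DecidableEq α] {a b u v : α} (huv : u ≠ v)
    (h : ({u, v} : Finset α) = {a, b}) : (u = a ∧ v = b) ∨ (u = b ∧ v = a) := by
  have h1 : u ∈ ({a, b} : Finset α) := by rw [← h]; simp
  have h2 : v ∈ ({a, b} : Finset α) := by rw [← h]; simp
  rw [Finset.mem_insert, Finset.mem_singleton] at h1 h2
  rcases h1 with h1 | h1 <;> rcases h2 with h2 | h2
  · exact absurd (h1.trans h2.symm) huv
  · exact Or.inl ⟨h1, h2⟩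
  · exact Or.inr ⟨h1, h2⟩
  · exact absurd (h1.trans h2.symm) huv

theorem p_COL (hPCE : S_PCE) : S_COL := by
  classical
  intro n G W hG
  obtain ⟨TT, R, hcard, hR, huniq, h2, h5, h4d, htri⟩ := hPCE n G W hG
  let enc : Finset (Fin n) → ℕ := Encodable.encode
  have henc : Function.Injective enc := Encodable.encode_injective
  let col : Fin n → Fin n → ℕ := fun u v =>
    if h : ∃ τ ∈ TT, R τ u v then enc (Classical.choose h) else enc {u, v}
  have k0 : ∀ u v, ∀ τ ∈ TT, R τ u v → col u v = enc τ := by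
    intro u v τ hτ hr
    have h : ∃ τ ∈ TT, R τ u v := ⟨τ, hτ, hr⟩
    have e : col u v = enc (Classical.choose h) := dif_pos h
    have hs := Classical.choose_spec h
    rw [e, huniq _ hs.1 τ hτ u v hs.2 hr]
  have k0' : ∀ u v, (¬ ∃ τ ∈ TT, R τ u v) → col u v = enc {u, v} := fun u v h => dif_neg h
  have hsy : ∀ u v, (∃ τ ∈ TT, R τ u v) → ∃ τ ∈ TT, R τ v u := by
    rintro u v ⟨τ, hτ, hr⟩
    exact ⟨τ, hτ, (hR τ hτ u v hr).2.2.2⟩
  have kn : ∀ (a b : Fin n), ∀ τ ∈ TT, enc {a, b} ≠ enc τ := by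
    intro a b τ hτ h
    have h1 := henc h
    have h3 := hcard τ hτ
    rw [← h1] at h3
    have h6 : ({a, b} : Finset (Fin n)).card ≤ 2 := Finset.card_le_two
    omega
  have k1 : ∀ u v, ∀ τ ∈ TT, (col u v = enc τ ↔ R τ u v) := by
    intro u v τ hτ
    constructor
    · intro h
      by_cases hex : ∃ τ ∈ TT, R τ u v
      · obtain ⟨τ', hτ', hr⟩ := hex
        rw [k0 u v τ' hτ' hr] at h
        rw [← henc h]
        exact hr
      · rw [k0' u v hex] at h
        exact absurd h (kn u v τ hτ)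
    · exact k0 u v τ hτ
  -- points of type `τ`
  have dA : ∀ τ ∈ TT, ∀ v ∈ W, dp G W col v (enc τ) = (W.filter (R τ v)).card := by
    intro τ hτ v hv
    unfold dp
    congr 1
    refine Finset.filter_congr fun u hu => ?_
    rw [k1 v u τ hτ]
    exact ⟨fun h => h.2, fun h => ⟨(hR τ hτ v u h).2.2.1, h⟩⟩
  have nA : ∀ τ ∈ TT, ∀ v ∈ W, (enc τ ∈ np G W col v ↔ ∃ u, R τ v u) := by
    intro τ hτ v hv
    rw [COL_mem_np]
    constructor
    · rintro ⟨u, _, _, h⟩
      exact ⟨u, (k1 v u τ hτ).1 h⟩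
    · rintro ⟨u, h⟩
      obtain ⟨_, h7, h8, _⟩ := hR τ hτ v u h
      exact ⟨u, h7, h8, (k1 v u τ hτ).2 h⟩
  have sA : ∀ τ ∈ TT, sz W (np G W col) (enc τ) = (W.filter (fun v => ∃ u, R τ v u)).card := by
    intro τ hτ
    unfold sz
    congr 1
    exact Finset.filter_congr fun v hv => nA τ hτ v hv
  -- points of type pair
  have kB : ∀ a ∈ W, ∀ b ∈ W, G.Adj a b → (¬ ∃ τ ∈ TT, R τ a b) → ∀ u v, G.Adj u v →
      (col u v = enc {a, b} ↔ (u = a ∧ v = b) ∨ (u = b ∧ v = a)) := by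
    intro a _ b _ _ hno u v huv
    constructor
    · intro h
      by_cases hex : ∃ τ ∈ TT, R τ u v
      · obtain ⟨τ, hτ, hr⟩ := hex
        rw [k0 u v τ hτ hr] at h
        exact absurd h.symm (kn a b τ hτ)
      · rw [k0' u v hex] at h
        exact COL_pair huv.ne (henc h)
    · rintro (⟨rfl, rfl⟩ | ⟨rfl, rfl⟩)
      · exact k0' _ _ hno
      · rw [k0' _ _ (fun h => hno (hsy _ _ h)), Finset.pair_comm]
  have dB : ∀ a ∈ W, ∀ b ∈ W, G.Adj a b → (¬ ∃ τ ∈ TT, R τ a b) → ∀ v ∈ W,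
      dp G W col v (enc {a, b}) = (if v = a then 1 else 0) + (if v = b then 1 else 0) := by
    intro a ha b hb hab hno v hv
    have hne : a ≠ b := hab.ne
    unfold dp
    by_cases h1 : v = a
    · have hvb : v ≠ b := by rw [h1]; exact hne
      rw [if_pos h1, if_neg hvb, add_zero, Finset.card_eq_one]
      refine ⟨b, ?_⟩
      ext u
      rw [Finset.mem_filter, Finset.mem_singleton]
      constructor
      · rintro ⟨_, h7, h8⟩
        rcases (kB a ha b hb hab hno v u h7).1 h8 with h | h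
        · exact h.2
        · exact absurd h.1 hvb
      · rintro rfl
        subst h1
        exact ⟨hb, hab, (kB v ha u hb hab hno v u hab).2 (Or.inl ⟨rfl, rfl⟩)⟩
    · by_cases h2' : v = b
      · rw [if_neg h1, if_pos h2', zero_add, Finset.card_eq_one]
        refine ⟨a, ?_⟩
        ext u
        rw [Finset.mem_filter, Finset.mem_singleton]
        constructor
        · rintro ⟨_, h7, h8⟩
          rcases (kB a ha b hb hab hno v u h7).1 h8 with h | h
          · exact absurd h.1 h1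
          · exact h.2
        · rintro rfl
          subst h2'
          exact ⟨ha, hab.symm, (kB u ha v hb hab hno v u hab.symm).2 (Or.inr ⟨rfl, rfl⟩)⟩
      · rw [if_neg h1, if_neg h2', Finset.card_eq_zero, Finset.filter_eq_empty_iff]
        rintro u _ ⟨h7, h8⟩
        rcases (kB a ha b hb hab hno v u h7).1 h8 with h | h
        · exact h1 h.1
        · exact h2' h.1
  have sB : ∀ a ∈ W, ∀ b ∈ W, G.Adj a b → (¬ ∃ τ ∈ TT, R τ a b) →
      sz W (np G W col) (enc {a, b}) = 2 := by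
    intro a ha b hb hab hno
    have e : W.filter (fun v => enc {a, b} ∈ np G W col v) = {a, b} := by
      ext v
      rw [Finset.mem_filter, Finset.mem_insert, Finset.mem_singleton, COL_mem_np]
      constructor
      · rintro ⟨_, u, _, h7, h8⟩
        rcases (kB a ha b hb hab hno v u h7).1 h8 with h | h
        · exact Or.inl h.1
        · exact Or.inr h.1
      · rintro (rfl | rfl)
        · exact ⟨ha, b, hb, hab, (kB v ha b hb hab hno v b hab).2 (Or.inl ⟨rfl, rfl⟩)⟩
        · exact ⟨hb, a, ha, hab.symm, (kB a ha v hb hab hno v a hab.symm).2 (Or.inr ⟨rfl, rfl⟩)⟩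
    unfold sz
    rw [e, Finset.card_pair hab.ne]
  have tB : ∀ a ∈ W, ∀ b ∈ W, G.Adj a b → (¬ ∃ τ ∈ TT, R τ a b) →
      ∑ v ∈ W, dp G W col v (enc {a, b}) = 2 := by
    intro a ha b hb hab hno
    rw [Finset.sum_congr rfl (dB a ha b hb hab hno), Finset.sum_add_distrib,
      Finset.sum_ite_eq' W a, Finset.sum_ite_eq' W b, if_pos ha, if_pos hb]
  -- every point is of one of the two types
  have hpt : ∀ p, 1 ≤ sz W (np G W col) p → ∃ a ∈ W, ∃ b ∈ W, G.Adj a b ∧ col a b = p := by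
    intro p hp
    unfold sz at hp
    obtain ⟨a, ha⟩ := Finset.card_pos.1 hp
    rw [Finset.mem_filter, COL_mem_np] at ha
    obtain ⟨haW, b, hb, h7, h8⟩ := ha
    exact ⟨a, haW, b, hb, h7, h8⟩
  have hsA3 : ∀ τ ∈ TT, ∀ a ∈ W, ∀ b, R τ a b →
      3 ≤ (W.filter (fun v => ∃ u, R τ v u)).card := by
    intro τ hτ a ha b hr
    have h7 := h2 τ hτ a ha ⟨b, hr⟩
    have h8 : insert a (W.filter (R τ a)) ⊆ W.filter (fun v => ∃ u, R τ v u) := by
      intro u hu
      rw [Finset.mem_insert] at hu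
      rw [Finset.mem_filter]
      rcases hu with rfl | hu
      · exact ⟨ha, b, hr⟩
      · rw [Finset.mem_filter] at hu
        exact ⟨hu.1, a, (hR τ hτ a u hu.2).2.2.2⟩
    have h9 : a ∉ W.filter (R τ a) := by
      rw [Finset.mem_filter]
      rintro ⟨_, h⟩
      exact G.irrefl (hR τ hτ a a h).2.2.1
    have h10 := Finset.card_le_card h8
    rw [Finset.card_insert_of_notMem h9] at h10
    omega
  refine ⟨col, ⟨?_, ?_, ?_, ?_, ?_, ?_⟩⟩
  · -- symm
    intro u hu v hv huv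
    by_cases hex : ∃ τ ∈ TT, R τ u v
    · obtain ⟨τ, hτ, hr⟩ := hex
      rw [k0 u v τ hτ hr, k0 v u τ hτ (hR τ hτ u v hr).2.2.2]
    · rw [k0' u v hex, k0' v u (fun h => hex (hsy _ _ h)), Finset.pair_comm]
  · -- three
    intro v hv
    set N := W.filter (fun u => G.Adj v u) with hN
    have hNc : N.card = dg G W v := rfl
    have hle := hG.deg v hv
    by_cases h4 : dg G W v = 4
    · obtain ⟨τ, hτ, hu⟩ := h4d v hv h4
      have h7 := h2 τ hτ v hv hu
      obtain ⟨u1, hu1, u2, hu2, hne⟩ := Finset.one_lt_card.1 (by omega : 1 < (W.filter (R τ v)).card)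
      rw [Finset.mem_filter] at hu1 hu2
      have hN1 : u1 ∈ N := Finset.mem_filter.2 ⟨hu1.1, (hR τ hτ v u1 hu1.2).2.2.1⟩
      have hN2 : u2 ∈ N := Finset.mem_filter.2 ⟨hu2.1, (hR τ hτ v u2 hu2.2).2.2.1⟩
      have hsub : np G W col v ⊆ (N.erase u1).image (col v) := by
        intro p hp
        rw [COL_mem_np] at hp
        obtain ⟨u, huW, h8, h9⟩ := hp
        rw [Finset.mem_image]
        by_cases he : u = u1
        · refine ⟨u2, Finset.mem_erase.2 ⟨hne.symm, hN2⟩, ?_⟩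
          rw [← h9, he, k0 v u1 τ hτ hu1.2, k0 v u2 τ hτ hu2.2]
        · exact ⟨u, Finset.mem_erase.2 ⟨he, Finset.mem_filter.2 ⟨huW, h8⟩⟩, h9⟩
      have h11 := (Finset.card_le_card hsub).trans Finset.card_image_le
      rw [Finset.card_erase_of_mem hN1, hNc, h4] at h11
      exact h11
    · have h11 : (np G W col v).card ≤ N.card := Finset.card_image_le
      rw [hNc] at h11
      omega
  · -- size
    intro p
    by_cases hp : 1 ≤ sz W (np G W col) p
    · obtain ⟨a, ha, b, hb, hab, rfl⟩ := hpt p hp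
      by_cases hex : ∃ τ ∈ TT, R τ a b
      · obtain ⟨τ, hτ, hr⟩ := hex
        rw [k0 a b τ hτ hr, sA τ hτ]
        exact (h5 τ hτ).1
      · rw [k0' a b hex, sB a ha b hb hab hex]
        omega
    · omega
  · -- cnt
    intro p hp
    obtain ⟨a, ha, b, hb, hab, rfl⟩ := hpt p hp
    by_cases hex : ∃ τ ∈ TT, R τ a b
    · obtain ⟨τ, hτ, hr⟩ := hex
      rw [k0 a b τ hτ hr, sA τ hτ, Finset.sum_congr rfl (dA τ hτ)]
      exact (h5 τ hτ).2
    · rw [k0' a b hex, sB a ha b hb hab hex, tB a ha b hb hab hex]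
  · -- two
    intro v hv p hp hs
    rw [COL_mem_np] at hp
    obtain ⟨u, hu, hvu, rfl⟩ := hp
    by_cases hex : ∃ τ ∈ TT, R τ v u
    · obtain ⟨τ, hτ, hr⟩ := hex
      rw [k0 v u τ hτ hr, dA τ hτ v hv]
      exact h2 τ hτ v hv ⟨u, hr⟩
    · rw [k0' v u hex, sB v hv u hu hvu hex] at hs
      omega
  · -- tri
    intro a ha b hb c hc hab hbc hac s1 s2 s3
    have key : ∀ x ∈ W, ∀ y ∈ W, ∀ τ ∈ TT, R τ x y → sz W (np G W col) (col x y) = 2 → False := by
      intro x hx y _ τ hτ hr hs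
      rw [k0 x y τ hτ hr, sA τ hτ] at hs
      have := hsA3 τ hτ x hx y hr
      omega
    obtain ⟨τ, hτ, h | h | h⟩ := htri a ha b hb c hc hab hbc hac
    · exact key a ha b hb τ hτ h s1
    · exact key b hb c hc τ hτ h s2
    · exact key a ha c hc τ hτ h s3

end Frag.K4
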