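import Pool.Agent.Work.MP_547619_k4.Defs

set_option autoImplicit false

namespace Frag.K4

open SimpleGraph Frag.Kz

theorem DCS_zero {n : ℕ} {G : SimpleGraph (Fin n)} {W : Finset (Fin n)}
    {pts : Fin n → Finset ℕ} {col : Fin n → Fin n → ℕ} (hS : Sys G W pts col) {v : Fin n}
    (hv : v ∈ W) {p : ℕ} (hp : p ∉ pts v) : dp G W col v p = 0 := by
  classical
  rw [dp, Finset.card_eq_zero, Finset.filter_eq_empty_iff]
  rintro u hu ⟨h1, h2⟩
  exact hp (h2 ▸ hS.mem v hv u hu h1)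

theorem DCS_one {n : ℕ} {G : SimpleGraph (Fin n)} {W : Finset (Fin n)}
    {pts : Fin n → Finset ℕ} {col : Fin n → Fin n → ℕ} (hS : Sys G W pts col) {v : Fin n}
    (hv : v ∈ W) {p : ℕ} (hp : sz W pts p = 1) : dp G W col v p = 0 := by
  classical
  rw [dp, Finset.card_eq_zero, Finset.filter_eq_empty_iff]
  rintro u hu ⟨h1, h2⟩
  have h3 : p ∈ pts v := h2 ▸ hS.mem v hv u hu h1
  have h4 : p ∈ pts u := by
    have h5 := hS.mem u hu v hv h1.symm
    rw [← hS.symm v hv u hu h1, h2] at h5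
    exact h5
  rw [sz, Finset.card_eq_one] at hp
  obtain ⟨x, hx⟩ := hp
  have h6 : v ∈ W.filter (fun v => p ∈ pts v) := Finset.mem_filter.2 ⟨hv, h3⟩
  have h7 : u ∈ W.filter (fun v => p ∈ pts v) := Finset.mem_filter.2 ⟨hu, h4⟩
  rw [hx, Finset.mem_singleton] at h6 h7
  rw [h6, h7] at h1
  exact G.loopless.irrefl _ h1

theorem p_DCS : S_DCS := by
  classical
  intro n G W pts col C hS hC
  have h1 : ∑ v ∈ W, dc G W pts col C v = ∑ p ∈ C, ∑ v ∈ W, dp G W col v p := by
    rw [Finset.sum_comm]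
    refine Finset.sum_congr rfl fun v hv => ?_
    rw [dc]
    refine Finset.sum_subset Finset.inter_subset_right fun p hp hp' => ?_
    refine DCS_zero hS hv fun h => hp' (Finset.mem_inter.2 ⟨h, hp⟩)
  have h2 : ∀ p ∈ C, ∑ v ∈ W, dp G W col v p + 6 =
      4 * sz W pts p + 2 * (if sz W pts p = 1 then 1 else 0) := by
    intro p hp
    have h3 : 1 ≤ sz W pts p := by
      have h4 := hC hp
      rw [PW, Finset.mem_biUnion] at h4
      obtain ⟨v, hv, h5⟩ := h4
      exact Finset.card_pos.2 ⟨v, Finset.mem_filter.2 ⟨hv, h5⟩⟩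
    rcases Nat.lt_or_ge (sz W pts p) 2 with h4 | h4
    · have h5 : sz W pts p = 1 := by omega
      rw [if_pos h5, h5, Finset.sum_eq_zero fun v hv => DCS_one hS hv h5]
    · rw [if_neg (by omega), hS.cnt p h4, mul_zero, add_zero]
  rw [h1]
  have h6 := Finset.sum_congr (rfl : C = C) h2
  rw [Finset.sum_add_distrib, Finset.sum_add_distrib, ← Finset.mul_sum, ← Finset.mul_sum,
    Finset.sum_const, smul_eq_mul, ← Finset.card_filter] at h6
  rw [pr, mul_comm 6]
  exact h6

end Frag.K4
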