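import Pool.Agent.Work.MP_547619_k4.Defs

/-!
# Block DSP: the degree split
-/

set_option autoImplicit false

namespace Frag.K4

open SimpleGraph Frag.Kz

theorem p_DSP : S_DSP := by
  classical
  intro n G W pts col C hS v hv
  have h1 : dc G W pts col C v + gc G W pts col C v = ∑ p ∈ pts v, dp G W col v p := by
    unfold dc gc
    rw [← Finset.sum_union]
    · congr 1
      ext p
      simp only [Finset.mem_union, Finset.mem_inter, Finset.mem_sdiff]
      tauto
    · rw [Finset.disjoint_left]
      intro p h2 h3
      exact (Finset.mem_sdiff.1 h3).2 (Finset.mem_inter.1 h2).2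
  rw [h1]
  unfold dg
  rw [Finset.card_eq_sum_card_fiberwise (f := col v) (t := pts v)]
  · refine Finset.sum_congr rfl fun p _ => ?_
    unfold dp
    congr 1
    ext u
    simp only [Finset.mem_filter, and_assoc]
  · intro u hu
    have hu' := Finset.mem_filter.1 (Finset.mem_coe.1 hu)
    exact Finset.mem_coe.2 (hS.mem v hv u hu'.1 hu'.2)

end Frag.K4
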