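import Pool.Agent.Work.MP_547619_k4.Defs

/-!
# Block DZZ: upper bound for the sum of `dc`
-/

set_option autoImplicit false

namespace Frag.K4

open SimpleGraph Frag.Kz

/-- A vertex with a point in `C` is in `ZZ`. -/
theorem DZZ_mem {n : ℕ} {G : SimpleGraph (Fin n)} {W : Finset (Fin n)}
    {pts : Fin n → Finset ℕ} {col : Fin n → Fin n → ℕ} (C : Finset ℕ) (S : Sys G W pts col)
    {v : Fin n} (hv : v ∈ W) {p : ℕ} (hp : p ∈ pts v) (hC : p ∈ C) : v ∈ ZZ W pts C := by
  have h1 : 0 < (pts v ∩ C).card := Finset.card_pos.2 ⟨p, Finset.mem_inter.2 ⟨hp, hC⟩⟩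
  have h2 : (pts v ∩ C).card ≤ 3 := by
    rw [← S.card3 v hv]
    exact Finset.card_le_card Finset.inter_subset_left
  unfold ZZ XX Ej
  simp only [Finset.mem_union, Finset.mem_filter]
  have h3 : (pts v ∩ C).card = 3 ∨ (pts v ∩ C).card = 1 ∨ (pts v ∩ C).card = 2 := by omega
  rcases h3 with h3 | h3 | h3
  · exact Or.inl ⟨hv, h3⟩
  · exact Or.inr (Or.inl ⟨hv, h3⟩)
  · exact Or.inr (Or.inr ⟨hv, h3⟩)

theorem DZZ_sub {n : ℕ} (W : Finset (Fin n)) (pts : Fin n → Finset ℕ) (C : Finset ℕ) :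
    ZZ W pts C ⊆ W := by
  intro v hv
  unfold ZZ XX Ej at hv
  simp only [Finset.mem_union, Finset.mem_filter] at hv
  rcases hv with h | h | h
  · exact h.1
  · exact h.1
  · exact h.1

open Classical in
theorem DZZ_le {n : ℕ} {G : SimpleGraph (Fin n)} {W : Finset (Fin n)}
    {pts : Fin n → Finset ℕ} {col : Fin n → Fin n → ℕ} (C : Finset ℕ) (S : Sys G W pts col)
    {v : Fin n} (hv : v ∈ W) :
    dc G W pts col C v ≤ ((ZZ W pts C).erase v).card := by
  unfold dc dp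
  rw [← Finset.card_biUnion]
  · refine Finset.card_le_card fun u hu => ?_
    obtain ⟨p, hp, hup⟩ := Finset.mem_biUnion.1 hu
    obtain ⟨huW, hadj, hcol⟩ := Finset.mem_filter.1 hup
    obtain ⟨-, hpC⟩ := Finset.mem_inter.1 hp
    refine Finset.mem_erase.2 ⟨fun h => G.loopless.irrefl v (h ▸ hadj), ?_⟩
    have h1 : col u v ∈ pts u := S.mem u huW v hv hadj.symm
    rw [← S.symm v hv u huW hadj, hcol] at h1
    exact DZZ_mem C S huW h1 hpC
  · intro p _ q _ hpq
    refine Finset.disjoint_left.2 fun u hu hu' => hpq ?_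
    rw [← (Finset.mem_filter.1 hu).2.2, ← (Finset.mem_filter.1 hu').2.2]

theorem p_DZZ : S_DZZ := by
  intro n G W pts col C S
  have h1 : ∑ v ∈ W, dc G W pts col C v = ∑ v ∈ ZZ W pts C, dc G W pts col C v := by
    refine (Finset.sum_subset (DZZ_sub W pts C) fun v hv hvZ => ?_).symm
    have h2 : pts v ∩ C = ∅ := by
      refine Finset.eq_empty_of_forall_notMem fun p hp => hvZ ?_
      obtain ⟨hp1, hp2⟩ := Finset.mem_inter.1 hp
      exact DZZ_mem C S hv hp1 hp2
    unfold dc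
    rw [h2, Finset.sum_empty]
  rw [h1]
  refine (Finset.sum_le_card_nsmul (ZZ W pts C) _ ((ZZ W pts C).card - 1) fun v hv => ?_).trans
    (le_of_eq (smul_eq_mul _ _))
  rw [← Finset.card_erase_of_mem hv]
  exact DZZ_le C S (DZZ_sub W pts C hv)

end Frag.K4
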