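import Pool.Agent.Work.MP_547619_k4.Defs

/-!
# Block EDZ: edges and `Z`
-/

set_option autoImplicit false

namespace Frag.K4

open SimpleGraph Frag.Kz

open Classical in
theorem EDZ_dg {n : ℕ} (G : SimpleGraph (Fin n)) {W Z : Finset (Fin n)} (hZ : Z ⊆ W)
    (u : Fin n) : dg G W u = dg G Z u + dg G (W \ Z) u := by
  unfold dg
  rw [← Finset.card_union_of_disjoint, ← Finset.filter_union, Finset.union_sdiff_of_subset hZ]
  exact Finset.disjoint_filter_filter Finset.disjoint_sdiff

open Classical in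
theorem EDZ_swap {n : ℕ} (G : SimpleGraph (Fin n)) (A B : Finset (Fin n)) :
    ∑ v ∈ A, dg G B v = ∑ u ∈ B, dg G A u := by
  unfold dg
  have h := Finset.sum_card_bipartiteAbove_eq_sum_card_bipartiteBelow (s := A) (t := B) G.Adj
  have h1 : ∀ v ∈ A, (B.filter (fun u => G.Adj v u)).card = (B.bipartiteAbove G.Adj v).card :=
    fun v _ => rfl
  have h2 : ∀ u ∈ B, (A.filter (fun v => G.Adj u v)).card = (A.bipartiteBelow G.Adj u).card := by
    intro u _
    unfold Finset.bipartiteBelow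
    refine congrArg Finset.card (Finset.filter_congr fun v _ => ?_)
    exact G.adj_comm u v
  rw [Finset.sum_congr rfl h1, Finset.sum_congr rfl h2]
  exact h

theorem p_EDZ : S_EDZ := by
  intro n G W Z hZ
  refine ⟨EDZ_dg G hZ, ?_⟩
  have h1 : ed2 G W = ∑ v ∈ W \ Z, dg G W v + ∑ v ∈ Z, dg G W v :=
    (Finset.sum_sdiff hZ).symm
  rw [h1, Finset.sum_congr rfl fun v _ => EDZ_dg G hZ v,
    Finset.sum_congr (s₁ := Z) rfl fun v _ => EDZ_dg G hZ v, Finset.sum_add_distrib,
    Finset.sum_add_distrib, EDZ_swap G (W \ Z) Z]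
  unfold ed2
  omega

end Frag.K4
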