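import Pool.Agent.Work.MP_547619_k4.Defs

/-! Block ESZ (helper98): the edges meeting `ZZ`. -/

set_option autoImplicit false

namespace Frag.K4

open SimpleGraph Frag.Kz

theorem ESZ_T {n : ℕ} {W : Finset (Fin n)} {pts : Fin n → Finset ℕ} {C : Finset ℕ} {j : ℕ}
    {v : Fin n} : v ∈ Ej W pts C j ↔ v ∈ W ∧ (pts v ∩ C).card = j := by
  unfold Ej
  rw [Finset.mem_filter]

theorem ESZ_X {n : ℕ} {W : Finset (Fin n)} {pts : Fin n → Finset ℕ} {C : Finset ℕ}
    {v : Fin n} : v ∈ XX W pts C ↔ v ∈ W ∧ ((pts v ∩ C).card = 1 ∨ (pts v ∩ C).card = 2) := by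
  unfold XX
  rw [Finset.mem_union, ESZ_T, ESZ_T]
  tauto

theorem ESZ_dis {n : ℕ} (W : Finset (Fin n)) (pts : Fin n → Finset ℕ) (C : Finset ℕ) :
    Disjoint (Ej W pts C 3) (XX W pts C) := by
  rw [Finset.disjoint_left]
  intro v h1 h2
  rw [ESZ_T] at h1
  rw [ESZ_X] at h2
  omega

theorem ESZ_sub {n : ℕ} (W : Finset (Fin n)) (pts : Fin n → Finset ℕ) (C : Finset ℕ) :
    ZZ W pts C ⊆ W := by
  intro v hv
  unfold ZZ at hv
  rw [Finset.mem_union, ESZ_T, ESZ_X] at hv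
  rcases hv with hv | hv
  · exact hv.1
  · exact hv.1

theorem ESZ_zero {n : ℕ} {G : SimpleGraph (Fin n)} {W : Finset (Fin n)}
    {pts : Fin n → Finset ℕ} {col : Fin n → Fin n → ℕ} {C : Finset ℕ} (hS : Sys G W pts col)
    (v : Fin n) (hv : v ∈ W) (hz : v ∉ ZZ W pts C) : dc G W pts col C v = 0 := by
  have h3 := hS.card3 v hv
  have h1 : (pts v ∩ C).card ≤ (pts v).card := Finset.card_le_card Finset.inter_subset_left
  unfold ZZ at hz
  rw [Finset.mem_union, ESZ_T, ESZ_X] at hz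
  have h0 : (pts v ∩ C).card = 0 := by
    by_contra hcon
    apply hz
    rcases Nat.lt_or_ge (pts v ∩ C).card 3 with h | h
    · exact Or.inr ⟨hv, by omega⟩
    · exact Or.inl ⟨hv, by omega⟩
  unfold dc
  rw [Finset.card_eq_zero.1 h0, Finset.sum_empty]

open Classical in
theorem ESZ_dc {n : ℕ} {G : SimpleGraph (Fin n)} {W : Finset (Fin n)}
    {pts : Fin n → Finset ℕ} {col : Fin n → Fin n → ℕ} {C : Finset ℕ} (hS : Sys G W pts col)
    (u : Fin n) (hu : u ∈ W) (Z : Finset (Fin n)) (hZ : Z ⊆ W) :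
    (Z.filter (fun x => G.Adj u x ∧ col u x ∈ C)).card ≤ dc G W pts col C u := by
  have hm : ∀ x ∈ Z.filter (fun x => G.Adj u x ∧ col u x ∈ C), col u x ∈ pts u ∩ C := by
    intro x hx
    rw [Finset.mem_filter] at hx
    exact Finset.mem_inter.2 ⟨hS.mem u hu x (hZ hx.1) hx.2.1, hx.2.2⟩
  rw [Finset.card_eq_sum_card_fiberwise hm]
  unfold dc
  refine Finset.sum_le_sum fun p _ => ?_
  unfold dp
  refine Finset.card_le_card ?_
  intro x hx
  rw [Finset.mem_filter, Finset.mem_filter] at hx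
  rw [Finset.mem_filter]
  exact ⟨hZ hx.1.1, hx.1.2.1, hx.2⟩

theorem ESZ_dg (hNBT : S_NBT) {n : ℕ} {G : SimpleGraph (Fin n)} {W : Finset (Fin n)}
    {pts : Fin n → Finset ℕ} {col : Fin n → Fin n → ℕ} {C : Finset ℕ} (hS : Sys G W pts col)
    (u : Fin n) (hu : u ∈ XX W pts C) :
    dg G (ZZ W pts C) u ≤ dc G W pts col C u + ((XX W pts C).card - 1) := by
  classical
  have huW : u ∈ W := (ESZ_X.1 hu).1
  have h1 := ESZ_dc (C := C) hS u huW (ZZ W pts C) (ESZ_sub W pts C)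
  have h2 : (ZZ W pts C).filter (fun x => G.Adj u x) ⊆
      (ZZ W pts C).filter (fun x => G.Adj u x ∧ col u x ∈ C) ∪ (XX W pts C).erase u := by
    intro x hx
    rw [Finset.mem_filter] at hx
    rw [Finset.mem_union, Finset.mem_filter, Finset.mem_erase]
    by_cases hc : col u x ∈ C
    · exact Or.inl ⟨hx.1, hx.2, hc⟩
    · refine Or.inr ⟨hx.2.ne', ?_⟩
      have h3 := hx.1
      unfold ZZ at h3
      rcases Finset.mem_union.1 h3 with h4 | h4
      · exfalso
        have h5 := (hNBT n G W pts col C hS x h4 u huW hx.2.symm).2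
        rw [hS.symm x (ESZ_T.1 h4).1 u huW hx.2.symm] at h5
        exact hc h5
      · exact h4
  have h3 := (Finset.card_le_card h2).trans (Finset.card_union_le _ _)
  rw [Finset.card_erase_of_mem hu] at h3
  unfold dg
  refine le_trans ?_ (Nat.add_le_add_right h1 _)
  convert h3 using 1

theorem p_ESZ (hDSP : S_DSP) (hNBT : S_NBT) (hEDZ : S_EDZ) : S_ESZ := by
  intro n G W pts col C hS
  obtain ⟨e1, e2⟩ := hEDZ n G W (ZZ W pts C) (ESZ_sub W pts C)
  have hW : ∑ v ∈ W, dc G W pts col C v = ∑ v ∈ ZZ W pts C, dc G W pts col C v :=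
    (Finset.sum_subset (ESZ_sub W pts C) fun v hv hz => ESZ_zero hS v hv hz).symm
  have hsp : ∀ f : Fin n → ℕ, ∑ v ∈ ZZ W pts C, f v =
      ∑ v ∈ Ej W pts C 3, f v + ∑ v ∈ XX W pts C, f v := fun f =>
    Finset.sum_union (ESZ_dis W pts C)
  have hT : ∑ v ∈ Ej W pts C 3, dc G W pts col C v ≤
      ∑ v ∈ Ej W pts C 3, (dg G (ZZ W pts C) v + 2 * dg G (W \ ZZ W pts C) v) := by
    refine Finset.sum_le_sum fun v hv => ?_
    have h1 := hDSP n G W pts col C hS v (ESZ_T.1 hv).1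
    have h2 := e1 v
    omega
  have hX : ∑ v ∈ XX W pts C, (dc G W pts col C v + 2 * gc G W pts col C v) ≤
      ∑ v ∈ XX W pts C, ((dg G (ZZ W pts C) v + 2 * dg G (W \ ZZ W pts C) v) +
        ((XX W pts C).card - 1)) := by
    refine Finset.sum_le_sum fun v hv => ?_
    have h1 := hDSP n G W pts col C hS v (ESZ_X.1 hv).1
    have h2 := e1 v
    have h3 := ESZ_dg hNBT hS v hv
    omega
  rw [Finset.sum_add_distrib, ← Finset.mul_sum, Finset.sum_add_distrib (s := XX W pts C)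
    (g := fun _ => (XX W pts C).card - 1), Finset.sum_const, smul_eq_mul] at hX
  have h4 := hsp (fun v => dg G (ZZ W pts C) v + 2 * dg G (W \ ZZ W pts C) v)
  rw [Finset.sum_add_distrib, ← Finset.mul_sum] at h4
  have h5 := hsp (fun v => dc G W pts col C v)
  omega

end Frag.K4
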