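import Pool.Agent.Work.MP_547619_k4.Defs

set_option autoImplicit false

namespace Frag.K4

open SimpleGraph Frag.Kz

theorem p_FAM : S_FAM := by
  classical
  intro n G W hG
  obtain ⟨𝒮, h𝒮⟩ : ∃ 𝒮 : Finset (Finset (Finset (Fin n))), ∀ TT, TT ∈ 𝒮 ↔
      (TT ⊆ W.powersetCard 3 ∧ (∀ τ ∈ TT, ∀ a ∈ τ, ∀ b ∈ τ, a ≠ b → G.Adj a b) ∧
        ∀ τ ∈ TT, ∀ τ' ∈ TT, τ ≠ τ' → (τ ∩ τ').card ≤ 1) :=
    ⟨(W.powersetCard 3).powerset.filter (fun TT =>
      (∀ τ ∈ TT, ∀ a ∈ τ, ∀ b ∈ τ, a ≠ b → G.Adj a b) ∧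
        ∀ τ ∈ TT, ∀ τ' ∈ TT, τ ≠ τ' → (τ ∩ τ').card ≤ 1), fun TT => by
      rw [Finset.mem_filter, Finset.mem_powerset]⟩
  have hne : 𝒮.Nonempty := ⟨∅, by rw [h𝒮]; simp⟩
  obtain ⟨TT, hTT, hmax⟩ := Finset.exists_max_image 𝒮 Finset.card hne
  obtain ⟨h1, h2, h3⟩ := (h𝒮 TT).1 hTT
  have hm : ∀ a ∈ W, ∀ b ∈ W, ∀ c ∈ W, G.Adj a b → G.Adj b c → G.Adj a c →
      ∃ τ ∈ TT, (a ∈ τ ∧ b ∈ τ) ∨ (b ∈ τ ∧ c ∈ τ) ∨ (a ∈ τ ∧ c ∈ τ) := by
    intro a ha b hb c hc hab hbc hac
    by_contra hcon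
    push Not at hcon
    have nab := hab.ne
    have nbc := hbc.ne
    have nac := hac.ne
    have hcard : ({a, b, c} : Finset (Fin n)).card = 3 := Finset.card_eq_three.2
      ⟨a, b, c, nab, nac, nbc, rfl⟩
    have hint : ∀ τ ∈ TT, ∀ x ∈ ({a, b, c} : Finset (Fin n)), ∀ y ∈ ({a, b, c} : Finset (Fin n)),
        x ∈ τ → y ∈ τ → x = y := by
      intro τ hτ x hx y hy hxτ hyτ
      obtain ⟨k1, k2, k3⟩ := hcon τ hτ
      simp only [Finset.mem_insert, Finset.mem_singleton] at hx hy
      rcases hx with rfl | rfl | rfl <;> rcases hy with rfl | rfl | rfl <;>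
        first
        | rfl
        | exact absurd hyτ (k1 hxτ)
        | exact absurd hxτ (k1 hyτ)
        | exact absurd hyτ (k2 hxτ)
        | exact absurd hxτ (k2 hyτ)
        | exact absurd hyτ (k3 hxτ)
        | exact absurd hxτ (k3 hyτ)
    have hcap : ∀ τ ∈ TT, (({a, b, c} : Finset (Fin n)) ∩ τ).card ≤ 1 := by
      intro τ hτ
      rw [Finset.card_le_one]
      intro x hx y hy
      rw [Finset.mem_inter] at hx hy
      exact hint τ hτ x hx.1 y hy.1 hx.2 hy.2
    have hnot : ({a, b, c} : Finset (Fin n)) ∉ TT := fun h =>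
      (hcon _ h).1 (by simp) (by simp)
    have hins : insert ({a, b, c} : Finset (Fin n)) TT ∈ 𝒮 := by
      rw [h𝒮]
      refine ⟨?_, ?_, ?_⟩
      · rw [Finset.insert_subset_iff]
        refine ⟨?_, h1⟩
        rw [Finset.mem_powersetCard]
        refine ⟨?_, hcard⟩
        intro x hx
        simp only [Finset.mem_insert, Finset.mem_singleton] at hx
        rcases hx with rfl | rfl | rfl <;> assumption
      · intro τ hτ x hx y hy hxy
        rw [Finset.mem_insert] at hτ
        rcases hτ with rfl | hτ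
        · simp only [Finset.mem_insert, Finset.mem_singleton] at hx hy
          rcases hx with rfl | rfl | rfl <;> rcases hy with rfl | rfl | rfl <;>
            first
            | exact absurd rfl hxy
            | assumption
            | (apply SimpleGraph.Adj.symm; assumption)
        · exact h2 τ hτ x hx y hy hxy
      · intro τ hτ τ' hτ' hne'
        rw [Finset.mem_insert] at hτ hτ'
        rcases hτ with rfl | hτ
        · rcases hτ' with rfl | hτ'
          · exact absurd rfl hne'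
          · exact hcap τ' hτ'
        · rcases hτ' with rfl | hτ'
          · rw [Finset.inter_comm]
            exact hcap τ hτ
          · exact h3 τ hτ τ' hτ' hne'
    have h5 := hmax _ hins
    rw [Finset.card_insert_of_notMem hnot] at h5
    omega
  have hatt : ∀ x, ∃ p : Finset (Fin n) × Finset (Fin n), x ∈ Xs G W TT →
      (p.1 ∈ TT ∧ p.2 ⊆ p.1 ∧ p.2.card = 2 ∧ ∀ y ∈ p.2, G.Adj x y) := by
    intro x
    by_cases hx : x ∈ Xs G W TT
    · have hx' := hx
      unfold Xs at hx'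
      rw [Finset.mem_filter] at hx'
      obtain ⟨hxW, hx4, hxn⟩ := hx'
      obtain ⟨a, ha, b, hb, hxa, hxb, hab⟩ := hG.tri x hxW hx4
      obtain ⟨τ, hτ, hc⟩ := hm x hxW a ha b hb hxa hab hxb
      have hxτ := hxn τ hτ
      have hab' : a ∈ τ ∧ b ∈ τ := by
        rcases hc with hc | hc | hc
        · exact absurd hc.1 hxτ
        · exact hc
        · exact absurd hc.1 hxτ
      refine ⟨(τ, {a, b}), fun _ => ⟨hτ, ?_, ?_, ?_⟩⟩
      · intro y hy
        simp only [Finset.mem_insert, Finset.mem_singleton] at hy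
        rcases hy with rfl | rfl
        · exact hab'.1
        · exact hab'.2
      · exact Finset.card_pair hab.ne
      · intro y hy
        simp only [Finset.mem_insert, Finset.mem_singleton] at hy
        rcases hy with rfl | rfl
        · exact hxa
        · exact hxb
    · exact ⟨(∅, ∅), fun h => absurd h hx⟩
  choose f hf using hatt
  refine ⟨TT, fun x => (f x).1, fun x => (f x).2, ?_, ?_, h2, h3, hm, ?_⟩
  · intro τ hτ
    exact (Finset.mem_powersetCard.1 (h1 hτ)).1
  · intro τ hτ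
    exact (Finset.mem_powersetCard.1 (h1 hτ)).2
  · intro x hx
    exact hf x hx

end Frag.K4
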