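import Pool.Agent.Work.MP_547619_k4.Defs

/-!
# MP_547619_co, THEOREM K14: block GUN
-/

set_option autoImplicit false

namespace Frag.K4

open SimpleGraph Frag.Kz

open Classical in
theorem GUN_dg {n : ℕ} (G : SimpleGraph (Fin n)) (v : Fin n) :
    dg G Finset.univ v = (G.neighborSet v).ncard := by
  have h : (((Finset.univ : Finset (Fin n)).filter (fun u => G.Adj v u) : Finset (Fin n)) :
      Set (Fin n)) = G.neighborSet v := by
    ext u
    simp
  rw [dg, ← h, Set.ncard_coe_finset]

open Classical in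
/-- Block GUN. -/
theorem p_GUN : S_GUN := by
  intro n G hG
  refine ⟨fun v _ => ?_, fun v _ hv => ?_⟩
  · rw [GUN_dg]
    exact hG.1 v
  · obtain ⟨x, hx, y, hy, hxy⟩ := hG.2 v
      ((Finset.univ : Finset (Fin n)).filter (fun u => G.Adj v u)) hv
      (fun x hx => (Finset.mem_filter.1 hx).2)
    exact ⟨x, Finset.mem_univ x, y, Finset.mem_univ y, (Finset.mem_filter.1 hx).2,
      (Finset.mem_filter.1 hy).2, hxy⟩

end Frag.K4
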