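import Pool.Agent.Work.MP_547619_k4.Defs

/-!
# Block HER: the local hypothesis is hereditary
-/

set_option autoImplicit false

namespace Frag.K4

open SimpleGraph Frag.Kz

theorem p_HER : S_HER := by
  classical
  intro n G W W' hG hW
  have hsub : ∀ v, W'.filter (fun u => G.Adj v u) ⊆ W.filter (fun u => G.Adj v u) := fun v =>
    Finset.filter_subset_filter _ hW
  have hle : ∀ v, dg G W' v ≤ dg G W v := fun v => by
    unfold dg
    exact Finset.card_le_card (hsub v)
  refine ⟨fun v hv => (hle v).trans (hG.deg v (hW hv)), fun v hv h4 => ?_⟩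
  have h1 : dg G W v = 4 := le_antisymm (hG.deg v (hW hv)) (h4 ▸ hle v)
  obtain ⟨a, ha, b, hb, hva, hvb, hab⟩ := hG.tri v (hW hv) h1
  have h2 : W'.filter (fun u => G.Adj v u) = W.filter (fun u => G.Adj v u) := by
    refine Finset.eq_of_subset_of_card_le (hsub v) ?_
    have h3 : dg G W v ≤ dg G W' v := by rw [h1, h4]
    exact h3
  have h5 : ∀ u ∈ W, G.Adj v u → u ∈ W' := by
    intro u hu hvu
    have h6 : u ∈ W.filter (fun u => G.Adj v u) := Finset.mem_filter.2 ⟨hu, hvu⟩
    rw [← h2] at h6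
    exact (Finset.mem_filter.1 h6).1
  exact ⟨a, h5 a ha hva, b, h5 b hb hvb, hva, hvb, hab⟩

end Frag.K4
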