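import Pool.Agent.Work.MP_547619_k4.Defs

/-! # Block IND (K14) -/

set_option autoImplicit false

namespace Frag.K4

open SimpleGraph Frag.Kz

lemma IND_Keep_mono {n : ℕ} {G : SimpleGraph (Fin n)} {k k' : ℕ} {F : Finset (Fin n)}
    (h : Keep G k F) (hk : k ≤ k') : Keep G k' F := by
  obtain ⟨H, h1, h2, h3⟩ := h
  exact ⟨H, h1, h2, fun Q hQ hc => (h3 Q hQ hc).trans (by omega)⟩

theorem p_IND (hKSM : S_KSM) (hKUN : S_KUN) (hHER : S_HER) (hTRM : S_TRM) : S_IND := by
  intro L n G W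
  induction hN : W.card using Nat.strong_induction_on generalizing W with
  | _ N ih =>
  intro hL hG
  subst hN
  by_cases hsmall : W.card ≤ 2 * L + 8
  · -- small sets
    refine ⟨W, subset_rfl, hKSM n (2 * L + 7) G W (by omega), ?_⟩
    calc L * (12 * W.card) ≤ L * (12 * W.card + ed2 G W) :=
          Nat.mul_le_mul_left _ (Nat.le_add_right _ _)
      _ ≤ _ := Nat.le_add_right _ _
  push Not at hsmall
  by_cases hb : ∃ T Z : Finset (Fin n), T ⊆ Z ∧ Z ⊆ W ∧ Z.Nonempty ∧ T.card ≤ 2 * L ∧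
      (∀ t ∈ T, ∀ u ∈ W, G.Adj t u → u ∈ Z) ∧
      12 * Z.card + ed2 G (W \ Z) ≤ 12 * T.card + ed2 G W
  · obtain ⟨T, Z, hTZ, hZW, hZne, hTc, hN, hg⟩ := hb
    have hc : (W \ Z).card + Z.card = W.card := Finset.card_sdiff_add_card_eq_card hZW
    have hZpos : 0 < Z.card := hZne.card_pos
    obtain ⟨F, hF, hK, hin⟩ := ih (W \ Z).card (by omega) (W \ Z) rfl hL
      (hHER n G W (W \ Z) hG Finset.sdiff_subset)
    have hdisj : Disjoint F T := by
      rw [Finset.disjoint_left]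
      intro x hx hxT
      exact (Finset.mem_sdiff.mp (hF hx)).2 (hTZ hxT)
    refine ⟨F ∪ T, Finset.union_subset (hF.trans Finset.sdiff_subset) (hTZ.trans hZW),
      hKUN n _ G F T hK (by omega) hdisj ?_, ?_⟩
    · intro x hx y hy hxy
      have hx' := Finset.mem_sdiff.mp (hF hx)
      exact hx'.2 (hN y hy x hx'.1 hxy.symm)
    · rw [Finset.card_union_of_disjoint hdisj, ← hc]
      have h2 : L * (12 * Z.card + ed2 G (W \ Z)) ≤ L * (12 * T.card + ed2 G W) :=
        Nat.mul_le_mul_left _ hg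
      have h4 : 0 ≤ 24 * Z.card := Nat.zero_le _
      nlinarith
  -- the terminal situation
  push Not at hb
  have hterm : Term (2 * L) G W :=
    ⟨hG.deg, fun T Z h1 h2 h3 h4 h5 => hb T Z h1 h2 h3 h4 h5⟩
  obtain ⟨F, hF, hK, hin⟩ := hTRM (2 * L) L n G W hL le_rfl (by omega) hG hterm
  exact ⟨F, hF, IND_Keep_mono hK (by omega), hin⟩

end Frag.K4
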