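import Pool.Agent.Work.MP_547619_k4.Defs

set_option autoImplicit false

namespace Frag.K4

open SimpleGraph Frag.Kz

theorem p_KPT (h1 : S_KPF) : S_KPT := by
  classical
  intro n G W pts col F own h hS hFW hpts hdis
  let G' : SimpleGraph (Fin n) :=
    { Adj := fun u v => u ≠ v ∧ (h u = h v ∨ h u ∈ own v ∨ h v ∈ own u)
      symm := ⟨by
        intro u v huv
        refine ⟨huv.1.symm, ?_⟩
        rcases huv.2 with h | h | h
        · left
          exact h.symm
        · right
          right
          exact h
        · right
          left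
          exact h⟩
      loopless := ⟨by
        intro u hu
        exact hu.1 rfl⟩ }
  have hK : Keep G' 7 F := by
    refine h1 n 6 G' F h own (fun v hv => (hpts v hv).2) hdis (fun u hu v hv huv => huv.2)
      (fun u hu v hv hne hh => ⟨hne, ?_⟩) ?_
    · rcases hh with hh | hh
      · left
        exact hh
      · right
        left
        exact hh
    · intro p
      refine le_trans (Finset.card_le_card ?_) (hS.size p)
      intro v hv
      rw [Finset.mem_filter] at hv ⊢
      refine ⟨hFW hv.1, ?_⟩
      rw [(hpts v hv.1).1, ← hv.2]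
      exact Finset.mem_insert_self _ _
  obtain ⟨H, hH1, hH2, hH3⟩ := hK
  refine ⟨H, ?_, hH2, hH3⟩
  intro u hu v hv huv
  apply hH1 u hu v hv
  refine ⟨huv.ne, ?_⟩
  have hp1 : col u v ∈ pts u := hS.mem u (hFW hu) v (hFW hv) huv
  have hp2 : col u v ∈ pts v := by
    rw [hS.symm u (hFW hu) v (hFW hv) huv]
    exact hS.mem v (hFW hv) u (hFW hu) huv.symm
  rw [(hpts u hu).1, Finset.mem_insert] at hp1
  rw [(hpts v hv).1, Finset.mem_insert] at hp2
  rcases hp1 with hp1 | hp1
  · rcases hp2 with hp2 | hp2
    · left
      rw [← hp1, ← hp2]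
    · right
      left
      rw [← hp1]
      exact hp2
  · rcases hp2 with hp2 | hp2
    · right
      right
      rw [← hp2]
      exact hp1
    · exact absurd hp2 (Finset.disjoint_left.1 (hdis u hu v hv huv.ne) hp1)

end Frag.K4
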