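import Pool.Agent.Work.MP_547619_k4.Defs

set_option autoImplicit false

namespace Frag.K4

open SimpleGraph Frag.Kz

/-- the number of private points of `v` in `C` -/
def LBD_pi {n : ℕ} (W : Finset (Fin n)) (pts : Fin n → Finset ℕ) (C : Finset ℕ) (v : Fin n) : ℕ :=
  ((pts v ∩ C).filter (fun p => sz W pts p = 1)).card

theorem LBD_sz {n : ℕ} {W : Finset (Fin n)} {pts : Fin n → Finset ℕ} {v : Fin n} (hv : v ∈ W)
    {p : ℕ} (hp : p ∈ pts v) : 1 ≤ sz W pts p :=
  Finset.card_pos.2 ⟨v, Finset.mem_filter.2 ⟨hv, hp⟩⟩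

theorem LBD_one {n : ℕ} {G : SimpleGraph (Fin n)} {W : Finset (Fin n)}
    {pts : Fin n → Finset ℕ} {col : Fin n → Fin n → ℕ} (C : Finset ℕ) (hs : Sys G W pts col)
    (v : Fin n) (hv : v ∈ W) :
    (pts v ∩ C).card ≤ dc G W pts col C v + LBD_pi W pts C v := by
  unfold dc LBD_pi
  rw [Finset.card_filter, ← Finset.sum_add_distrib, Finset.card_eq_sum_ones]
  refine Finset.sum_le_sum fun p hp => ?_
  have hp1 := (Finset.mem_inter.1 hp).1
  have h1 := LBD_sz hv hp1
  by_cases h2 : sz W pts p = 1
  · rw [if_pos h2]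
    omega
  · have h3 := hs.one v hv p hp1 (by omega)
    omega

theorem LBD_swap {n : ℕ} (W : Finset (Fin n)) (pts : Fin n → Finset ℕ) (C : Finset ℕ) :
    ∑ v ∈ W, LBD_pi W pts C v = pr W pts C := by
  have h1 : ∀ v ∈ W, LBD_pi W pts C v =
      ∑ p ∈ C.filter (fun p => sz W pts p = 1), if p ∈ pts v then 1 else 0 := by
    intro v _
    unfold LBD_pi
    rw [← Finset.card_filter]
    congr 1
    ext p
    simp only [Finset.mem_filter, Finset.mem_inter]
    tauto
  rw [Finset.sum_congr rfl h1, Finset.sum_comm]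
  unfold pr
  rw [Finset.card_eq_sum_ones]
  refine Finset.sum_congr rfl fun p hp => ?_
  rw [← Finset.card_filter]
  exact (Finset.mem_filter.1 hp).2

theorem LBD_disj {n : ℕ} (W : Finset (Fin n)) (pts : Fin n → Finset ℕ) (C : Finset ℕ)
    (i j : ℕ) (h : i ≠ j) : Disjoint (Ej W pts C i) (Ej W pts C j) := by
  rw [Finset.disjoint_left]
  intro v h1 h2
  exact h ((Finset.mem_filter.1 h1).2.symm.trans (Finset.mem_filter.1 h2).2)

theorem LBD_disj3 {n : ℕ} (W : Finset (Fin n)) (pts : Fin n → Finset ℕ) (C : Finset ℕ) :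
    Disjoint (Ej W pts C 3) (XX W pts C) := by
  unfold XX
  rw [Finset.disjoint_union_right]
  exact ⟨LBD_disj W pts C 3 1 (by norm_num), LBD_disj W pts C 3 2 (by norm_num)⟩

theorem p_LBD : S_LBD := by
  intro n G W pts col C hs
  refine ⟨∑ v ∈ Ej W pts C 3, LBD_pi W pts C v, ∑ v ∈ XX W pts C, LBD_pi W pts C v, ?_, ?_, ?_, ?_⟩
  · rw [← Finset.sum_union (LBD_disj3 W pts C), ← LBD_swap]
    refine Finset.sum_subset ?_ ?_
    · intro v hv
      rcases Finset.mem_union.1 hv with h | h
      · exact (Finset.mem_filter.1 h).1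
      · rcases Finset.mem_union.1 h with h | h
        · exact (Finset.mem_filter.1 h).1
        · exact (Finset.mem_filter.1 h).1
    · intro v hv hv2
      have h3 : (pts v ∩ C).card ≤ 3 :=
        (Finset.card_le_card Finset.inter_subset_left).trans (hs.card3 v hv).le
      have h4 : (pts v ∩ C).card = 0 := by
        by_contra h0
        apply hv2
        have h5 : (pts v ∩ C).card = 1 ∨ (pts v ∩ C).card = 2 ∨ (pts v ∩ C).card = 3 := by omega
        rcases h5 with h | h | h
        · exact Finset.mem_union_right _ (Finset.mem_union_left _ (Finset.mem_filter.2 ⟨hv, h⟩))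
        · exact Finset.mem_union_right _ (Finset.mem_union_right _ (Finset.mem_filter.2 ⟨hv, h⟩))
        · exact Finset.mem_union_left _ (Finset.mem_filter.2 ⟨hv, h⟩)
      unfold LBD_pi
      rw [Finset.card_eq_zero.1 h4]
      rfl
  · rw [← Finset.sum_add_distrib]
    calc 3 * (Ej W pts C 3).card = ∑ v ∈ Ej W pts C 3, 3 := by
          rw [Finset.sum_const, smul_eq_mul, mul_comm]
      _ = ∑ v ∈ Ej W pts C 3, (pts v ∩ C).card :=
          Finset.sum_congr rfl fun v hv => (Finset.mem_filter.1 hv).2.symm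
      _ ≤ _ := Finset.sum_le_sum fun v hv => LBD_one C hs v (Finset.mem_filter.1 hv).1
  · rw [← Finset.sum_add_distrib]
    have hd := LBD_disj W pts C 1 2 (by norm_num)
    calc 2 * (Ej W pts C 2).card + (Ej W pts C 1).card =
        ∑ v ∈ Ej W pts C 1, 1 + ∑ v ∈ Ej W pts C 2, 2 := by
          rw [Finset.sum_const, Finset.sum_const, smul_eq_mul, smul_eq_mul]
          ring
      _ = ∑ v ∈ Ej W pts C 1, (pts v ∩ C).card + ∑ v ∈ Ej W pts C 2, (pts v ∩ C).card := by
          congr 1
          · exact Finset.sum_congr rfl fun v hv => (Finset.mem_filter.1 hv).2.symm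
          · exact Finset.sum_congr rfl fun v hv => (Finset.mem_filter.1 hv).2.symm
      _ = ∑ v ∈ XX W pts C, (pts v ∩ C).card := by
          unfold XX
          rw [Finset.sum_union hd]
      _ ≤ _ := by
          refine Finset.sum_le_sum fun v hv => LBD_one C hs v ?_
          rcases Finset.mem_union.1 hv with h | h
          · exact (Finset.mem_filter.1 h).1
          · exact (Finset.mem_filter.1 h).1
  · intro h0 v hv p hp
    have hvW := (Finset.mem_filter.1 hv).1
    have h1 : LBD_pi W pts C v = 0 := Finset.sum_eq_zero_iff.1 h0 v hv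
    unfold LBD_pi at h1
    rw [Finset.card_eq_zero, Finset.filter_eq_empty_iff] at h1
    have h2 : pts v ∩ C = pts v := by
      apply Finset.eq_of_subset_of_card_le Finset.inter_subset_left
      rw [hs.card3 v hvW, (Finset.mem_filter.1 hv).2]
    rw [h2] at h1
    have h3 := h1 hp
    have h4 := LBD_sz hvW hp
    omega

end Frag.K4
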