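import Pool.Agent.Work.MP_547619_k4.Defs

set_option autoImplicit false

namespace Frag.K4

open SimpleGraph Frag.Kz

theorem NBT_sub {n : ℕ} {G : SimpleGraph (Fin n)} {W : Finset (Fin n)}
    {pts : Fin n → Finset ℕ} {col : Fin n → Fin n → ℕ} {C : Finset ℕ} (hS : Sys G W pts col)
    {t : Fin n} (ht : t ∈ Ej W pts C 3) : t ∈ W ∧ pts t ⊆ C := by
  unfold Ej at ht
  rw [Finset.mem_filter] at ht
  refine ⟨ht.1, ?_⟩
  have h1 : pts t ∩ C = pts t :=
    Finset.eq_of_subset_of_card_le Finset.inter_subset_left (by rw [ht.2, hS.card3 t ht.1])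
  exact Finset.inter_eq_left.mp h1

theorem p_NBT : S_NBT := by
  intro n G W pts col C hS t ht u hu hadj
  obtain ⟨htW, hsub⟩ := NBT_sub hS ht
  have hc : col t u ∈ C := hsub (hS.mem t htW u hu hadj)
  refine ⟨?_, hc⟩
  have hpu : col t u ∈ pts u := by
    rw [hS.symm t htW u hu hadj]
    exact hS.mem u hu t htW hadj.symm
  have hmem : col t u ∈ pts u ∩ C := Finset.mem_inter.mpr ⟨hpu, hc⟩
  have hpos : 1 ≤ (pts u ∩ C).card := Finset.card_pos.mpr ⟨_, hmem⟩
  have hle : (pts u ∩ C).card ≤ 3 := by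
    rw [← hS.card3 u hu]
    exact Finset.card_le_card Finset.inter_subset_left
  unfold ZZ XX Ej
  simp only [Finset.mem_union, Finset.mem_filter]
  have h3 : (pts u ∩ C).card = 3 ∨ (pts u ∩ C).card = 1 ∨ (pts u ∩ C).card = 2 := by omega
  rcases h3 with h | h | h
  · exact Or.inl ⟨hu, h⟩
  · exact Or.inr (Or.inl ⟨hu, h⟩)
  · exact Or.inr (Or.inr ⟨hu, h⟩)

end Frag.K4
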