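import Pool.Agent.Work.MP_547619_k4.Defs

/-! # Block PCE: the pieces in abstract form (MP_547619_co, THEOREM K14) -/

set_option autoImplicit false

namespace Frag.K4

open SimpleGraph Frag.Kz

theorem PCE_Xs {n : ℕ} {G : SimpleGraph (Fin n)} {W : Finset (Fin n)}
    {TT : Finset (Finset (Fin n))} {x : Fin n} (h : x ∈ Xs G W TT) :
    x ∈ W ∧ dg G W x = 4 ∧ ∀ τ ∈ TT, x ∉ τ := by
  classical
  unfold Xs at h
  rw [Finset.mem_filter] at h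
  exact h

theorem p_PCE (hFAM : S_FAM) (hPCN : S_PCN) : S_PCE := by
  classical
  intro n G W hG
  obtain ⟨TT, ta, bs, hF⟩ := hFAM n G W hG
  refine ⟨TT, RR G W TT ta bs, hF.card, ?_, ?_, ?_, ?_, ?_, ?_⟩
  · -- (2)
    intro τ hτ u v h
    rcases h with ⟨h1, h2, h3⟩ | ⟨h1, h2, h3⟩ | ⟨h1, h2, h3⟩
    · exact ⟨hF.sub τ hτ h1, hF.sub τ hτ h2, hF.adj τ hτ u h1 v h2 h3,
        Or.inl ⟨h2, h1, Ne.symm h3⟩⟩
    · obtain ⟨a1, a2, a3, a4⟩ := hF.att u h1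
      exact ⟨(PCE_Xs h1).1, hF.sub _ a1 (a2 h3), a4 v h3, Or.inr (Or.inr ⟨h1, h2, h3⟩)⟩
    · obtain ⟨a1, a2, a3, a4⟩ := hF.att v h1
      exact ⟨hF.sub _ a1 (a2 h3), (PCE_Xs h1).1, (a4 u h3).symm, Or.inr (Or.inl ⟨h1, h2, h3⟩)⟩
  · -- (3)
    intro τ hτ τ' hτ' u v h h'
    rcases h with ⟨h1, h2, h3⟩ | ⟨h1, h2, h3⟩ | ⟨h1, h2, h3⟩
    · rcases h' with ⟨g1, g2, g3⟩ | ⟨g1, g2, g3⟩ | ⟨g1, g2, g3⟩
      · by_contra hne
        have h4 := hF.dis τ hτ τ' hτ' hne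
        have h5 : 1 < (τ ∩ τ').card := Finset.one_lt_card.2
          ⟨u, Finset.mem_inter.2 ⟨h1, g1⟩, v, Finset.mem_inter.2 ⟨h2, g2⟩, h3⟩
        omega
      · exact absurd h1 ((PCE_Xs g1).2.2 τ hτ)
      · exact absurd h2 ((PCE_Xs g1).2.2 τ hτ)
    · rcases h' with ⟨g1, g2, g3⟩ | ⟨g1, g2, g3⟩ | ⟨g1, g2, g3⟩
      · exact absurd g1 ((PCE_Xs h1).2.2 τ' hτ')
      · rw [← h2, ← g2]
      · obtain ⟨a1, a2, -, -⟩ := hF.att v g1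
        exact absurd (a2 g3) ((PCE_Xs h1).2.2 _ a1)
    · rcases h' with ⟨g1, g2, g3⟩ | ⟨g1, g2, g3⟩ | ⟨g1, g2, g3⟩
      · exact absurd g2 ((PCE_Xs h1).2.2 τ' hτ')
      · obtain ⟨a1, a2, -, -⟩ := hF.att v h1
        exact absurd (a2 h3) ((PCE_Xs g1).2.2 _ a1)
      · rw [← h2, ← g2]
  · -- (4)
    intro τ hτ
    have h := (hPCN n G W TT ta bs hG hF τ hτ).1
    intro v hv hu
    convert h v hv hu using 2
  · -- (5)
    intro τ hτ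
    have h := (hPCN n G W TT ta bs hG hF τ hτ).2
    refine ⟨?_, ?_⟩
    · convert h.1 using 2
    · convert h.2 using 2
  · -- (6)
    intro v hv hd
    by_cases hc : ∃ τ ∈ TT, v ∈ τ
    · obtain ⟨τ, hτ, hvτ⟩ := hc
      have h1 : 1 < τ.card := by
        rw [hF.card τ hτ]
        norm_num
      obtain ⟨u, hu, hne⟩ := Finset.exists_mem_ne h1 v
      exact ⟨τ, hτ, u, Or.inl ⟨hvτ, hu, Ne.symm hne⟩⟩
    · push Not at hc
      have hx : v ∈ Xs G W TT := by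
        unfold Xs
        rw [Finset.mem_filter]
        exact ⟨hv, hd, hc⟩
      obtain ⟨a1, a2, a3, a4⟩ := hF.att v hx
      have h1 : (bs v).Nonempty := by
        rw [← Finset.card_pos, a3]
        norm_num
      obtain ⟨u, hu⟩ := h1
      exact ⟨ta v, a1, u, Or.inr (Or.inl ⟨hx, rfl, hu⟩)⟩
  · -- (7)
    intro a ha b hb c hc hab hbc hac
    obtain ⟨τ, hτ, h⟩ := hF.max a ha b hb c hc hab hbc hac
    rcases h with ⟨h1, h2⟩ | ⟨h1, h2⟩ | ⟨h1, h2⟩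
    · exact ⟨τ, hτ, Or.inl (Or.inl ⟨h1, h2, hab.ne⟩)⟩
    · exact ⟨τ, hτ, Or.inr (Or.inl (Or.inl ⟨h1, h2, hbc.ne⟩))⟩
    · exact ⟨τ, hτ, Or.inr (Or.inr (Or.inl ⟨h1, h2, hac.ne⟩))⟩

end Frag.K4
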