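import Pool.Agent.Work.MP_547619_k4.Defs

/-! # Block PCN: counting the edges of a piece -/

set_option autoImplicit false

namespace Frag.K4

open SimpleGraph Frag.Kz

theorem p_PCN : S_PCN := by
  classical
  intro n G W TT ta bs hg hf τ hτ
  set A : Finset (Fin n) := (Xs G W TT).filter (fun x => ta x = τ) with hA
  have hXW : ∀ x ∈ Xs G W TT, x ∈ W ∧ dg G W x = 4 ∧ ∀ τ ∈ TT, x ∉ τ := by
    intro x hx
    unfold Xs at hx
    rw [Finset.mem_filter] at hx
    exact ⟨hx.1, hx.2.1, hx.2.2⟩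
  have hAX : ∀ x ∈ A, x ∈ Xs G W TT ∧ ta x = τ := by
    intro x hx
    rw [hA, Finset.mem_filter] at hx
    exact hx
  have hAW : ∀ x ∈ A, x ∈ W := fun x hx => (hXW x (hAX x hx).1).1
  have hAτ : ∀ x ∈ A, x ∉ τ := fun x hx => (hXW x (hAX x hx).1).2.2 τ hτ
  have hbs : ∀ x ∈ A, bs x ⊆ τ ∧ (bs x).card = 2 ∧ ∀ y ∈ bs x, G.Adj x y := by
    intro x hx
    obtain ⟨h1, h2⟩ := hAX x hx
    obtain ⟨-, h4, h5, h6⟩ := hf.att x h1
    rw [h2] at h4
    exact ⟨h4, h5, h6⟩
  have hτW := hf.sub τ hτ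
  have hτ3 := hf.card τ hτ
  have F1 : ∀ v ∈ τ, W.filter (RR G W TT ta bs τ v) =
      τ.erase v ∪ A.filter (fun x => v ∈ bs x) := by
    intro v hv
    ext u
    simp only [Finset.mem_filter, Finset.mem_union, Finset.mem_erase]
    constructor
    · rintro ⟨-, h | h | h⟩
      · exact Or.inl ⟨Ne.symm h.2.2, h.2.1⟩
      · exact absurd hv ((hXW v h.1).2.2 τ hτ)
      · exact Or.inr ⟨by rw [hA, Finset.mem_filter]; exact ⟨h.1, h.2.1⟩, h.2.2⟩
    · rintro (h | h)
      · exact ⟨hτW h.2, Or.inl ⟨hv, h.2, Ne.symm h.1⟩⟩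
      · exact ⟨hAW u h.1, Or.inr (Or.inr ⟨(hAX u h.1).1, (hAX u h.1).2, h.2⟩)⟩
  have F2 : ∀ v ∈ A, W.filter (RR G W TT ta bs τ v) = bs v := by
    intro v hv
    ext u
    simp only [Finset.mem_filter]
    constructor
    · rintro ⟨-, h | h | h⟩
      · exact absurd h.1 (hAτ v hv)
      · exact h.2.2
      · exfalso
        have hu : u ∈ A := by rw [hA, Finset.mem_filter]; exact ⟨h.1, h.2.1⟩
        exact hAτ v hv ((hbs u hu).1 h.2.2)
    · intro h
      exact ⟨hτW ((hbs v hv).1 h), Or.inr (Or.inl ⟨(hAX v hv).1, (hAX v hv).2, h⟩)⟩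
  have F3 : ∀ v, v ∉ τ → v ∉ A → ∀ u, ¬ RR G W TT ta bs τ v u := by
    rintro v hv hvA u (h | h | h)
    · exact hv h.1
    · exact hvA (by rw [hA, Finset.mem_filter]; exact ⟨h.1, h.2.1⟩)
    · have hu : u ∈ A := by rw [hA, Finset.mem_filter]; exact ⟨h.1, h.2.1⟩
      exact hv ((hbs u hu).1 h.2.2)
  have hdisj : Disjoint τ A := by
    rw [Finset.disjoint_left]
    intro x hx hxA
    exact hAτ x hxA hx
  have C1 : ∀ v ∈ τ, (W.filter (RR G W TT ta bs τ v)).card =
      2 + (A.filter (fun x => v ∈ bs x)).card := by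
    intro v hv
    rw [F1 v hv, Finset.card_union_of_disjoint, Finset.card_erase_of_mem hv, hτ3]
    rw [Finset.disjoint_left]
    intro x hx hx2
    exact hAτ x (Finset.mem_filter.mp hx2).1 (Finset.mem_of_mem_erase hx)
  have C2 : ∀ v ∈ A, (W.filter (RR G W TT ta bs τ v)).card = 2 := by
    intro v hv
    rw [F2 v hv]
    exact (hbs v hv).2.1
  have hset : W.filter (fun v => ∃ u, RR G W TT ta bs τ v u) = τ ∪ A := by
    ext v
    simp only [Finset.mem_filter, Finset.mem_union]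
    constructor
    · rintro ⟨-, u, hu⟩
      by_contra hc
      push Not at hc
      exact F3 v hc.1 hc.2 u hu
    · rintro (h | h)
      · refine ⟨hτW h, ?_⟩
        have h1 : 0 < (τ.erase v).card := by rw [Finset.card_erase_of_mem h, hτ3]; norm_num
        obtain ⟨u, hu⟩ := Finset.card_pos.mp h1
        rw [Finset.mem_erase] at hu
        exact ⟨u, Or.inl ⟨h, hu.2, Ne.symm hu.1⟩⟩
      · refine ⟨hAW v h, ?_⟩
        have h1 : 0 < (bs v).card := by rw [(hbs v h).2.1]; norm_num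
        obtain ⟨u, hu⟩ := Finset.card_pos.mp h1
        exact ⟨u, Or.inr (Or.inl ⟨(hAX v h).1, (hAX v h).2, hu⟩)⟩
  have hsumk : ∑ v ∈ τ, (A.filter (fun x => v ∈ bs x)).card = 2 * A.card := by
    have h1 : ∑ v ∈ τ, (A.filter (fun x => v ∈ bs x)).card =
        ∑ x ∈ A, (τ.filter (fun v => v ∈ bs x)).card := by
      simp only [Finset.card_filter]
      exact Finset.sum_comm
    rw [h1]
    have h2 : ∀ x ∈ A, (τ.filter (fun v => v ∈ bs x)).card = 2 := by
      intro x hx
      have : τ.filter (fun v => v ∈ bs x) = bs x := by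
        ext v
        simp only [Finset.mem_filter]
        exact ⟨fun h => h.2, fun h => ⟨(hbs x hx).1 h, h⟩⟩
      rw [this]
      exact (hbs x hx).2.1
    rw [Finset.sum_congr rfl h2, Finset.sum_const, smul_eq_mul, mul_comm]
  have hsub : τ ∪ A ⊆ W := Finset.union_subset hτW hAW
  have hsum : ∑ v ∈ W, (W.filter (RR G W TT ta bs τ v)).card = 6 + 4 * A.card := by
    rw [← Finset.sum_subset hsub, Finset.sum_union hdisj, Finset.sum_congr rfl C1,
      Finset.sum_congr rfl C2, Finset.sum_add_distrib, hsumk, Finset.sum_const, Finset.sum_const,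
      hτ3]
    · simp only [smul_eq_mul]
      ring
    · intro v _ hv
      rw [Finset.mem_union, not_or] at hv
      rw [Finset.card_eq_zero, Finset.filter_eq_empty_iff]
      exact fun u _ => F3 v hv.1 hv.2 u
  have hA3 : A.card ≤ 3 := by
    have h1 : ∑ v ∈ τ, (2 + (A.filter (fun x => v ∈ bs x)).card) ≤ ∑ v ∈ τ, 4 := by
      apply Finset.sum_le_sum
      intro v hv
      rw [← C1 v hv, F1 v hv]
      refine le_trans (Finset.card_le_card ?_) (hg.deg v (hτW hv))
      intro u hu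
      rw [Finset.mem_union, Finset.mem_erase, Finset.mem_filter] at hu
      rw [Finset.mem_filter]
      rcases hu with h | h
      · exact ⟨hτW h.2, hf.adj τ hτ v hv u h.2 (Ne.symm h.1)⟩
      · exact ⟨hAW u h.1, ((hbs u h.1).2.2 v h.2).symm⟩
    rw [Finset.sum_add_distrib, hsumk, Finset.sum_const, Finset.sum_const, hτ3] at h1
    simp only [smul_eq_mul] at h1
    omega
  refine ⟨?_, ?_, ?_⟩
  · rintro v hv ⟨u, hu⟩
    by_cases h1 : v ∈ τ
    · rw [C1 v h1]
      omega
    · by_cases h2 : v ∈ A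
      · rw [C2 v h2]
      · exact absurd hu (F3 v h1 h2 u)
  · rw [hset, Finset.card_union_of_disjoint hdisj, hτ3]
    omega
  · rw [hset, Finset.card_union_of_disjoint hdisj, hτ3, hsum]
    ring

end Frag.K4
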