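import Pool.Agent.Work.MP_547619_k4.Defs

/-! MP_547619_co, THEOREM K14: block PRV (private points). -/

set_option autoImplicit false

namespace Frag.K4

open SimpleGraph Frag.Kz

theorem p_PRV : S_PRV := by
  classical
  intro n W np hnp
  obtain ⟨B, hB⟩ : ∃ B : ℕ, ∀ v ∈ W, ∀ p ∈ np v, p < B := by
    refine ⟨(W.biUnion np).sup id + 1, fun v hv p hp => Nat.lt_succ_of_le ?_⟩
    exact Finset.le_sup (f := id) (Finset.mem_biUnion.mpr ⟨v, hv, hp⟩)
  have hmem : ∀ v p, p ∈ np v ∪ (Finset.range (3 - (np v).card)).image
      (fun i => B + 3 * v.val + i) ↔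
      p ∈ np v ∨ ∃ i, i < 3 - (np v).card ∧ B + 3 * v.val + i = p := by
    intro v p
    simp only [Finset.mem_union, Finset.mem_image, Finset.mem_range]
  refine ⟨fun v => np v ∪ (Finset.range (3 - (np v).card)).image (fun i => B + 3 * v.val + i),
    ?_, fun v hv => Finset.subset_union_left, ?_, ?_⟩
  · intro v hv
    have hd : Disjoint (np v) ((Finset.range (3 - (np v).card)).image
        (fun i => B + 3 * v.val + i)) := by
      rw [Finset.disjoint_left]
      intro p hp hp'
      obtain ⟨i, _, hi⟩ := Finset.mem_image.mp hp'
      have := hB v hv p hp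
      omega
    rw [Finset.card_union_of_disjoint hd, Finset.card_image_of_injective _
      (fun i j hij => by simpa using hij), Finset.card_range]
    have := hnp v hv
    omega
  · intro v hv p hp hpn
    obtain ⟨i, hi, hip⟩ := ((hmem v p).mp hp).resolve_left hpn
    have h1 : W.filter (fun u => p ∈ np u ∪ (Finset.range (3 - (np u).card)).image
        (fun i => B + 3 * u.val + i)) = {v} := by
      ext u
      rw [Finset.mem_filter, Finset.mem_singleton]
      constructor
      · rintro ⟨hu, hpu⟩
        rcases (hmem u p).mp hpu with h | ⟨j, hj, hjp⟩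
        · have := hB u hu p h
          omega
        · apply Fin.ext
          omega
      · rintro rfl
        exact ⟨hv, hp⟩
    unfold sz
    have h2 : (W.filter (fun u => p ∈ np u ∪ (Finset.range (3 - (np u).card)).image
        (fun i => B + 3 * u.val + i))).card = 1 := by
      rw [h1, Finset.card_singleton]
    convert h2
  · intro u hu v hv p hpu hpv
    rcases (hmem v p).mp hpv with h | ⟨j, hj, hjp⟩
    · exact h
    · have := hB u hu p hpu
      omega

end Frag.K4
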