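import Pool.Agent.Work.MP_547619_k4.Defs

set_option autoImplicit false

namespace Frag.K4

open SimpleGraph Frag.Kz

theorem ST1_sub {n : ℕ} {G : SimpleGraph (Fin n)} {W : Finset (Fin n)}
    {pts : Fin n → Finset ℕ} {col : Fin n → Fin n → ℕ} {C : Finset ℕ} (hS : Sys G W pts col)
    {t : Fin n} (ht : t ∈ Ej W pts C 3) : t ∈ W ∧ pts t ⊆ C := by
  unfold Ej at ht
  rw [Finset.mem_filter] at ht
  refine ⟨ht.1, ?_⟩
  have h1 : pts t ∩ C = pts t :=
    Finset.eq_of_subset_of_card_le Finset.inter_subset_left (by rw [ht.2, hS.card3 t ht.1])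
  exact Finset.inter_eq_left.mp h1

theorem ST1_ge {n : ℕ} {G : SimpleGraph (Fin n)} {W : Finset (Fin n)}
    {pts : Fin n → Finset ℕ} {col : Fin n → Fin n → ℕ} {C : Finset ℕ} (hS : Sys G W pts col)
    (hsz : ∀ v ∈ Ej W pts C 3, ∀ p ∈ pts v, 2 ≤ sz W pts p)
    {t : Fin n} (ht : t ∈ Ej W pts C 3) : 3 ≤ dc G W pts col C t := by
  obtain ⟨htW, hsub⟩ := ST1_sub hS ht
  unfold dc
  rw [Finset.inter_eq_left.mpr hsub]
  have h1 : ∑ p ∈ pts t, 1 ≤ ∑ p ∈ pts t, dp G W col t p :=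
    Finset.sum_le_sum (fun p hp => hS.one t htW p hp (hsz t ht p hp))
  have h2 : ∑ p ∈ pts t, 1 = 3 := by
    rw [Finset.sum_const, hS.card3 t htW]
    rfl
  omega

theorem ST1_size {n : ℕ} {G : SimpleGraph (Fin n)} {W : Finset (Fin n)}
    {pts : Fin n → Finset ℕ} {col : Fin n → Fin n → ℕ} {C : Finset ℕ} (hS : Sys G W pts col)
    (hsz : ∀ v ∈ Ej W pts C 3, ∀ p ∈ pts v, 2 ≤ sz W pts p)
    {t : Fin n} (ht : t ∈ Ej W pts C 3) (h3 : dc G W pts col C t = 3) :
    ∀ p ∈ pts t, sz W pts p = 2 := by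
  obtain ⟨htW, hsub⟩ := ST1_sub hS ht
  intro p hp
  have h2 := hsz t ht p hp
  by_contra hne
  have h4 : 3 ≤ sz W pts p := by omega
  have h5 := hS.two t htW p hp h4
  unfold dc at h3
  rw [Finset.inter_eq_left.mpr hsub] at h3
  have h6 : ∑ q ∈ pts t, 1 < ∑ q ∈ pts t, dp G W col t q :=
    Finset.sum_lt_sum (fun q hq => hS.one t htW q hq (hsz t ht q hq)) ⟨p, hp, by omega⟩
  have h7 : ∑ q ∈ pts t, 1 = 3 := by
    rw [Finset.sum_const, hS.card3 t htW]
    rfl
  omega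

theorem ST1_dg (hDSP : S_DSP) {n : ℕ} {G : SimpleGraph (Fin n)} {W : Finset (Fin n)}
    {pts : Fin n → Finset ℕ} {col : Fin n → Fin n → ℕ} {C : Finset ℕ} (hS : Sys G W pts col)
    {t : Fin n} (ht : t ∈ Ej W pts C 3) : dg G W t = dc G W pts col C t := by
  obtain ⟨htW, hsub⟩ := ST1_sub hS ht
  have h1 := hDSP n G W pts col C hS t htW
  have h2 : gc G W pts col C t = 0 := by
    unfold gc
    rw [Finset.sdiff_eq_empty_iff_subset.mpr hsub]
    rfl
  omega

theorem ST1_all (hDSP : S_DSP) (hNBT : S_NBT) {n : ℕ} {G : SimpleGraph (Fin n)}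
    {W : Finset (Fin n)}
    {pts : Fin n → Finset ℕ} {col : Fin n → Fin n → ℕ} {C : Finset ℕ} (hS : Sys G W pts col)
    {t : Fin n} (ht : t ∈ Ej W pts C 3) (h3 : dc G W pts col C t = 3)
    (hZ : (ZZ W pts C).card = 4) : ∀ u ∈ ZZ W pts C, u ≠ t → G.Adj t u := by
  classical
  have htZ : t ∈ ZZ W pts C := by
    unfold ZZ
    exact Finset.mem_union_left _ ht
  have hdg := ST1_dg hDSP hS ht
  have hsub : W.filter (fun u => G.Adj t u) ⊆ (ZZ W pts C).erase t := by
    intro u hu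
    rw [Finset.mem_filter] at hu
    rw [Finset.mem_erase]
    exact ⟨fun h => G.loopless.irrefl t (h ▸ hu.2), (hNBT n G W pts col C hS t ht u hu.1 hu.2).1⟩
  have hcard : ((ZZ W pts C).erase t).card ≤ (W.filter (fun u => G.Adj t u)).card := by
    rw [Finset.card_erase_of_mem htZ, hZ]
    have : (W.filter (fun u => G.Adj t u)).card = dg G W t := by
      unfold dg
      congr
    omega
  have heq := Finset.eq_of_subset_of_card_le hsub hcard
  intro u hu hne
  have h1 : u ∈ (ZZ W pts C).erase t := Finset.mem_erase.mpr ⟨hne, hu⟩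
  rw [← heq, Finset.mem_filter] at h1
  exact h1.2

theorem p_ST1 (hDSP : S_DSP) (hNBT : S_NBT) : S_ST1 := by
  intro n G W pts col C hS hT hX2 hX1 hsum hsz
  classical
  obtain ⟨t, t', htt, hTeq⟩ := Finset.card_eq_two.mp hT
  have ht : t ∈ Ej W pts C 3 := by rw [hTeq]; simp
  have ht' : t' ∈ Ej W pts C 3 := by rw [hTeq]; simp
  have hge := ST1_ge hS hsz ht
  have hge' := ST1_ge hS hsz ht'
  have hsum2 : dc G W pts col C t + dc G W pts col C t' = 6 := by
    rw [hTeq, Finset.sum_pair htt] at hsum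
    exact hsum
  have h3 : dc G W pts col C t = 3 := by omega
  have h3' : dc G W pts col C t' = 3 := by omega
  have hx1 : Ej W pts C 1 = ∅ := Finset.card_eq_zero.mp hX1
  have hdisj : Disjoint (Ej W pts C 3) (Ej W pts C 2) := by
    rw [Finset.disjoint_left]
    intro v hv hv'
    unfold Ej at hv hv'
    rw [Finset.mem_filter] at hv hv'
    omega
  have hZ : (ZZ W pts C).card = 4 := by
    unfold ZZ XX
    rw [hx1, Finset.empty_union, Finset.card_union_of_disjoint hdisj, hT, hX2]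
  obtain ⟨x, hx⟩ : (Ej W pts C 2).Nonempty := by
    rw [← Finset.card_pos]; omega
  have hxZ : x ∈ ZZ W pts C := by
    unfold ZZ XX
    exact Finset.mem_union_right _ (Finset.mem_union_right _ hx)
  have ht'Z : t' ∈ ZZ W pts C := by
    unfold ZZ
    exact Finset.mem_union_left _ ht'
  have hxt : x ≠ t := fun h => (Finset.disjoint_left.mp hdisj) ht (h ▸ hx)
  have hxt' : x ≠ t' := fun h => (Finset.disjoint_left.mp hdisj) ht' (h ▸ hx)
  have a1 := ST1_all hDSP hNBT hS ht h3 hZ t' ht'Z htt.symm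
  have a2 := ST1_all hDSP hNBT hS ht h3 hZ x hxZ hxt
  have a3 := ST1_all hDSP hNBT hS ht' h3' hZ x hxZ hxt'
  have htW := (ST1_sub hS ht).1
  have ht'W := (ST1_sub hS ht').1
  have hxW : x ∈ W := by
    unfold Ej at hx
    exact (Finset.mem_filter.mp hx).1
  have s1 := ST1_size hS hsz ht h3
  have s2 := ST1_size hS hsz ht' h3'
  exact hS.tri t htW t' ht'W x hxW a1 a3 a2 (s1 _ (hS.mem t htW t' ht'W a1))
    (s2 _ (hS.mem t' ht'W x hxW a3)) (s1 _ (hS.mem t htW x hxW a2))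

end Frag.K4
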