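import Pool.Agent.Work.MP_547619_k4.Defs

set_option autoImplicit false

namespace Frag.K4

open SimpleGraph Frag.Kz

theorem ST2_sub {n : ℕ} {G : SimpleGraph (Fin n)} {W : Finset (Fin n)}
    {pts : Fin n → Finset ℕ} {col : Fin n → Fin n → ℕ} {C : Finset ℕ} (hS : Sys G W pts col)
    {t : Fin n} (ht : t ∈ Ej W pts C 3) : t ∈ W ∧ pts t ∩ C = pts t := by
  have h1 := Finset.mem_filter.1 ht
  refine ⟨h1.1, Finset.eq_of_subset_of_card_le Finset.inter_subset_left ?_⟩
  rw [h1.2, hS.card3 t h1.1]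

theorem ST2_dp {n : ℕ} {G : SimpleGraph (Fin n)} {W : Finset (Fin n)}
    {pts : Fin n → Finset ℕ} {col : Fin n → Fin n → ℕ} {C : Finset ℕ} (hS : Sys G W pts col)
    (hc : (Ej W pts C 3).card = 3) (h9 : ∑ v ∈ Ej W pts C 3, dc G W pts col C v = 9)
    (hp : ∀ v ∈ Ej W pts C 3, ∀ p ∈ pts v, 2 ≤ sz W pts p) :
    ∀ t ∈ Ej W pts C 3, dc G W pts col C t = 3 ∧ ∀ p ∈ pts t, sz W pts p = 2 := by
  have hge : ∀ t ∈ Ej W pts C 3, 3 ≤ dc G W pts col C t := by
    intro t ht
    obtain ⟨htW, hi⟩ := ST2_sub hS ht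
    unfold dc
    rw [hi]
    calc 3 = ∑ p ∈ pts t, 1 := by simp [hS.card3 t htW]
      _ ≤ ∑ p ∈ pts t, dp G W col t p :=
        Finset.sum_le_sum (fun p hpp => hS.one t htW p hpp (hp t ht p hpp))
  have heq : ∀ t ∈ Ej W pts C 3, dc G W pts col C t = 3 := by
    have hsum : ∑ v ∈ Ej W pts C 3, 3 = ∑ v ∈ Ej W pts C 3, dc G W pts col C v := by
      rw [h9]; simp [hc]
    intro t ht
    exact ((Finset.sum_eq_sum_iff_of_le hge).1 hsum t ht).symm
  intro t ht
  refine ⟨heq t ht, ?_⟩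
  obtain ⟨htW, hi⟩ := ST2_sub hS ht
  have h3 : ∑ p ∈ pts t, dp G W col t p = 3 := by
    have := heq t ht
    unfold dc at this
    rwa [hi] at this
  have hsum : ∑ p ∈ pts t, 1 = ∑ p ∈ pts t, dp G W col t p := by
    rw [h3]; simp [hS.card3 t htW]
  have h1 := (Finset.sum_eq_sum_iff_of_le
    (fun p hpp => hS.one t htW p hpp (hp t ht p hpp))).1 hsum
  intro p hpp
  have a := h1 p hpp
  have b := hp t ht p hpp
  by_contra hne
  have := hS.two t htW p hpp (by omega)
  omega

open Classical in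
theorem ST2_dcx {n : ℕ} {G : SimpleGraph (Fin n)} {W : Finset (Fin n)}
    {pts : Fin n → Finset ℕ} {col : Fin n → Fin n → ℕ} {C : Finset ℕ} (hS : Sys G W pts col)
    (h2 : S_NBT) {x : Fin n} (hx : x ∈ W) :
    ((Ej W pts C 3).filter (fun t => G.Adj x t)).card ≤ dc G W pts col C x := by
  have hmap : ∀ t ∈ (Ej W pts C 3).filter (fun t => G.Adj x t), col x t ∈ pts x ∩ C := by
    intro t ht
    obtain ⟨ht1, ht2⟩ := Finset.mem_filter.1 ht
    obtain ⟨htW, -⟩ := ST2_sub hS ht1
    have := (h2 n G W pts col C hS t ht1 x hx ht2.symm).2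
    refine Finset.mem_inter.2 ⟨hS.mem x hx t htW ht2, ?_⟩
    rw [hS.symm x hx t htW ht2]
    exact this
  rw [Finset.card_eq_sum_card_fiberwise hmap]
  unfold dc
  refine Finset.sum_le_sum (fun p _ => ?_)
  unfold dp
  refine Finset.card_le_card ?_
  intro t ht
  obtain ⟨ht0, ht3⟩ := Finset.mem_filter.1 ht
  obtain ⟨ht1, ht2⟩ := Finset.mem_filter.1 ht0
  exact Finset.mem_filter.2 ⟨(ST2_sub hS ht1).1, ht2, ht3⟩

theorem p_ST2 (h1 : S_DSP) (h2 : S_NBT) : S_ST2 := by
  classical
  intro n G W pts col C hS hc h9 h3 hp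
  have hd := ST2_dp hS hc h9 hp
  have hdg : ∀ t ∈ Ej W pts C 3, dg G W t = 3 := by
    intro t ht
    obtain ⟨htW, hi⟩ := ST2_sub hS ht
    have a := h1 n G W pts col C hS t htW
    have b : gc G W pts col C t = 0 := by
      unfold gc
      have : pts t \ C = ∅ := by
        rw [Finset.sdiff_eq_empty_iff_subset]
        intro p hpp
        rw [← hi] at hpp
        exact (Finset.mem_inter.1 hpp).2
      rw [this]; simp
    have c := (hd t ht).1
    omega
  -- splitting the neighbours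
  have hsplit : ∀ t ∈ Ej W pts C 3, 3 ≤ ((Ej W pts C 3).filter (fun u => G.Adj t u)).card
      + ((XX W pts C).filter (fun u => G.Adj t u)).card := by
    intro t ht
    have hN : 3 = (W.filter (fun u => G.Adj t u)).card := (hdg t ht).symm
    refine le_trans (le_of_eq hN) ?_
    refine le_trans (Finset.card_le_card ?_) (Finset.card_union_le _ _)
    intro u hu
    obtain ⟨huW, hadj⟩ := Finset.mem_filter.1 hu
    have := (h2 n G W pts col C hS t ht u huW hadj).1
    rcases Finset.mem_union.1 this with h | h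
    · exact Finset.mem_union_left _ (Finset.mem_filter.2 ⟨h, hadj⟩)
    · exact Finset.mem_union_right _ (Finset.mem_filter.2 ⟨h, hadj⟩)
  have hXW : ∀ x ∈ XX W pts C, x ∈ W := by
    intro x hx
    rcases Finset.mem_union.1 hx with h | h
    · exact (Finset.mem_filter.1 h).1
    · exact (Finset.mem_filter.1 h).1
  have hX : ∑ t ∈ Ej W pts C 3, ((XX W pts C).filter (fun u => G.Adj t u)).card ≤ 3 := by
    calc ∑ t ∈ Ej W pts C 3, ((XX W pts C).filter (fun u => G.Adj t u)).card
        = ∑ t ∈ Ej W pts C 3, ∑ u ∈ XX W pts C, (if G.Adj t u then 1 else 0) := by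
          simp only [Finset.card_filter]
      _ = ∑ u ∈ XX W pts C, ∑ t ∈ Ej W pts C 3, (if G.Adj t u then 1 else 0) :=
          Finset.sum_comm
      _ = ∑ u ∈ XX W pts C, ((Ej W pts C 3).filter (fun t => G.Adj u t)).card := by
          refine Finset.sum_congr rfl (fun u _ => ?_)
          rw [Finset.card_filter]
          refine Finset.sum_congr rfl (fun t _ => ?_)
          simp only [G.adj_comm u t]
      _ ≤ ∑ u ∈ XX W pts C, dc G W pts col C u :=
          Finset.sum_le_sum (fun u hu => ST2_dcx hS h2 (hXW u hu))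
      _ = 3 := h3
  have hle : ∀ t ∈ Ej W pts C 3, (Ej W pts C 3).filter (fun u => G.Adj t u) ⊆
      (Ej W pts C 3).erase t := by
    intro t _ u hu
    obtain ⟨hu1, hu2⟩ := Finset.mem_filter.1 hu
    exact Finset.mem_erase.2 ⟨fun h => by rw [h] at hu2; exact G.irrefl hu2, hu1⟩
  have hle2 : ∀ t ∈ Ej W pts C 3, ((Ej W pts C 3).filter (fun u => G.Adj t u)).card ≤ 2 := by
    intro t ht
    refine le_trans (Finset.card_le_card (hle t ht)) ?_
    rw [Finset.card_erase_of_mem ht, hc]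
  have hsumT : ∑ t ∈ Ej W pts C 3, ((Ej W pts C 3).filter (fun u => G.Adj t u)).card = 6 := by
    have a : ∑ t ∈ Ej W pts C 3, 3 ≤ ∑ t ∈ Ej W pts C 3,
        (((Ej W pts C 3).filter (fun u => G.Adj t u)).card
          + ((XX W pts C).filter (fun u => G.Adj t u)).card) := Finset.sum_le_sum hsplit
    rw [Finset.sum_add_distrib, Finset.sum_const, hc] at a
    have b : ∑ t ∈ Ej W pts C 3, ((Ej W pts C 3).filter (fun u => G.Adj t u)).card ≤
        ∑ t ∈ Ej W pts C 3, 2 := Finset.sum_le_sum hle2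
    rw [Finset.sum_const, hc] at b
    simp only [smul_eq_mul] at a b
    omega
  have hall : ∀ t ∈ Ej W pts C 3, ((Ej W pts C 3).filter (fun u => G.Adj t u)).card = 2 := by
    have hs : ∑ t ∈ Ej W pts C 3, ((Ej W pts C 3).filter (fun u => G.Adj t u)).card =
        ∑ t ∈ Ej W pts C 3, 2 := by
      rw [hsumT, Finset.sum_const, hc]
      simp
    exact (Finset.sum_eq_sum_iff_of_le hle2).1 hs
  have hadj : ∀ t ∈ Ej W pts C 3, ∀ u ∈ Ej W pts C 3, t ≠ u → G.Adj t u := by
    intro t ht u hu hne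
    have he : (Ej W pts C 3).filter (fun u => G.Adj t u) = (Ej W pts C 3).erase t := by
      refine Finset.eq_of_subset_of_card_le (hle t ht) ?_
      rw [hall t ht, Finset.card_erase_of_mem ht, hc]
    have : u ∈ (Ej W pts C 3).erase t := Finset.mem_erase.2 ⟨hne.symm, hu⟩
    rw [← he] at this
    exact (Finset.mem_filter.1 this).2
  obtain ⟨a, b, c, hab, hac, hbc, hT⟩ := Finset.card_eq_three.1 hc
  have ha : a ∈ Ej W pts C 3 := by rw [hT]; simp
  have hb : b ∈ Ej W pts C 3 := by rw [hT]; simp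
  have hcc : c ∈ Ej W pts C 3 := by rw [hT]; simp
  have haW := (ST2_sub hS ha).1
  have hbW := (ST2_sub hS hb).1
  have hcW := (ST2_sub hS hcc).1
  have Aab := hadj a ha b hb hab
  have Abc := hadj b hb c hcc hbc
  have Aac := hadj a ha c hcc hac
  exact hS.tri a haW b hbW c hcW Aab Abc Aac
    ((hd a ha).2 _ (hS.mem a haW b hbW Aab))
    ((hd b hb).2 _ (hS.mem b hbW c hcW Abc))
    ((hd a ha).2 _ (hS.mem a haW c hcW Aac))

end Frag.K4
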