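import Pool.Agent.Work.MP_547619_k4.Defs

set_option autoImplicit false

namespace Frag.K4

open SimpleGraph Frag.Kz

theorem p_SYS (h1 : S_COL) (h2 : S_PRV) : S_SYS := by
  classical
  intro n G W hG
  obtain ⟨col, hc⟩ := h1 n G W hG
  obtain ⟨pts, hp3, hpsub, hpone, hpback⟩ := h2 n W (np G W col) hc.three
  have hsz : ∀ u ∈ W, ∀ p ∈ np G W col u, sz W pts p = sz W (np G W col) p := by
    intro u hu p hp
    unfold sz
    congr 1
    apply Finset.filter_congr
    intro v hv
    constructor
    · intro h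
      exact hpback u hu v hv p hp h
    · intro h
      exact hpsub v hv h
  have hin : ∀ v ∈ W, ∀ p ∈ pts v, 2 ≤ sz W pts p → p ∈ np G W col v := by
    intro v hv p hp h
    by_contra hn
    have := hpone v hv p hp hn
    omega
  have hex : ∀ p, 2 ≤ sz W pts p → ∃ v ∈ W, p ∈ np G W col v := by
    intro p h
    have hne : (W.filter (fun v => p ∈ pts v)).Nonempty := by
      rw [← Finset.card_pos]
      unfold sz at h
      omega
    obtain ⟨v, hv⟩ := hne
    rw [Finset.mem_filter] at hv
    exact ⟨v, hv.1, hin v hv.1 p hv.2 h⟩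
  have hnp : ∀ u ∈ W, ∀ v ∈ W, G.Adj u v → col u v ∈ np G W col u := by
    intro u hu v hv h
    unfold np
    rw [Finset.mem_image]
    exact ⟨v, Finset.mem_filter.2 ⟨hv, h⟩, rfl⟩
  refine ⟨pts, col, ?_⟩
  refine
    { card3 := hp3
      symm := hc.symm
      mem := ?_
      cnt := ?_
      size := ?_
      one := ?_
      two := ?_
      tri := ?_ }
  · intro u hu v hv h
    exact hpsub u hu (hnp u hu v hv h)
  · intro p h
    obtain ⟨v, hv, hp⟩ := hex p h
    rw [hsz v hv p hp] at h ⊢
    exact hc.cnt p (by omega)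
  · intro p
    by_cases h : 2 ≤ sz W pts p
    · obtain ⟨v, hv, hp⟩ := hex p h
      rw [hsz v hv p hp]
      exact hc.size p
    · omega
  · intro v hv p hp h
    have hm := hin v hv p hp h
    unfold np at hm
    rw [Finset.mem_image] at hm
    obtain ⟨u, hu, hup⟩ := hm
    rw [Finset.mem_filter] at hu
    unfold dp
    apply Finset.card_pos.2
    exact ⟨u, Finset.mem_filter.2 ⟨hu.1, hu.2, hup⟩⟩
  · intro v hv p hp h
    have hm := hin v hv p hp (by omega)
    rw [hsz v hv p hm] at h
    exact hc.two v hv p hm h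
  · intro a ha b hb c hcW hab hbc hac e1 e2 e3
    rw [hsz a ha _ (hnp a ha b hb hab)] at e1
    rw [hsz b hb _ (hnp b hb c hcW hbc)] at e2
    rw [hsz a ha _ (hnp a ha c hcW hac)] at e3
    exact hc.tri a ha b hb c hcW hab hbc hac e1 e2 e3

end Frag.K4
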