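import Pool.Agent.Work.MP_547619_k4.Defs

/-! # Block TRM (K14) -/

set_option autoImplicit false

namespace Frag.K4

open SimpleGraph Frag.Kz

theorem p_TRM (hSYS : S_SYS) (hMAT : S_MAT) (hCHO : S_CHO) (hKPT : S_KPT) : S_TRM := by
  intro K L n G W hL hK hLW hG hT
  obtain ⟨pts, col, hS⟩ := hSYS n G W hG
  obtain ⟨f, hf, h1⟩ := hMAT K L n G W pts col hL hK hT hS
  obtain ⟨F, own, h, hFW, hown, hdis, h2⟩ := hCHO n W pts f hS.card3 hf
  refine ⟨F, hFW, hKPT n G W pts col F own h hS hFW hown hdis, ?_⟩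
  have h3 : (PW W pts).card ≤ W.card * 3 := by
    unfold PW
    exact Finset.card_biUnion_le_card_mul _ _ 3 fun v hv => (hS.card3 v hv).le
  have h4 : L * ((PW W pts).card / L) ≤ (PW W pts).card := Nat.mul_div_le _ L
  generalize (PW W pts).card / L = D at h1 h4
  generalize (PW W pts).card = P at h1 h2 h3 h4
  generalize ((PW W pts).filter (fun x => f x = x)).card = Fx at h1 h2
  have h6 : 12 * W.card ≤ 12 * F.card + 6 * (D + 1) + ed2 G W := by omega
  have h7 : L * (12 * W.card) ≤ L * (12 * F.card + 6 * (D + 1) + ed2 G W) :=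
    Nat.mul_le_mul_left _ h6
  have e4 : L * (12 * F.card + 6 * (D + 1) + ed2 G W) =
      L * (12 * F.card + ed2 G W) + 6 * (L * D + L) := by ring
  rw [e4] at h7
  omega

end Frag.K4
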