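import Pool.Agent.Work.MP_547619_k4.Defs

/-! # Block UPP (K14) -/

set_option autoImplicit false

namespace Frag.K4

open SimpleGraph Frag.Kz

lemma UPP_ed2 {n : ℕ} (G : SimpleGraph (Fin n)) : ed2 G Finset.univ = 2 * G.edgeSet.ncard := by
  classical
  have h1 : G.edgeSet.ncard = G.edgeFinset.card := by
    rw [← coe_edgeFinset, Set.ncard_coe_finset]
  rw [h1, ← G.sum_degrees_eq_twice_card_edges]
  unfold ed2
  refine Finset.sum_congr rfl fun v _ => ?_
  unfold dg
  rw [← card_neighborFinset_eq_degree]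
  congr 1
  ext u
  simp

theorem p_UPP (hKTW : S_KTW) (hIND : S_IND) (hGUN : S_GUN) : S_UPP := by
  intro L hL n G hG
  obtain ⟨F, _, hK, hin⟩ := hIND L n G Finset.univ hL (hGUN n G hG)
  refine ⟨Finset.univ \ F, ?_, hKTW n _ G F hK⟩
  have h1 : (Finset.univ \ F).card + F.card = n := by
    have := Finset.card_sdiff_add_card_eq_card (Finset.subset_univ F)
    simpa using this
  rw [UPP_ed2, Finset.card_univ, Fintype.card_fin] at hin
  have h2 : ((Finset.univ \ F).card : ℝ) + (F.card : ℝ) = n := by exact_mod_cast h1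
  have h3 : (L : ℝ) * (12 * n) ≤
      L * (12 * F.card + 2 * G.edgeSet.ncard) + 24 * n := by
    exact_mod_cast hin
  have hL' : (0 : ℝ) < L := by
    have : 0 < L := by omega
    exact_mod_cast this
  have h4 : ((Finset.univ \ F).card : ℝ) = n - F.card := by linarith
  rw [h4]
  have h5 : (n : ℝ) ≤ F.card + (G.edgeSet.ncard : ℝ) / 6 + 2 / L * n := by
    have e1 : (n : ℝ) = (L * (12 * n)) / (L * 12) := by
      field_simp
    have e2 : (F.card : ℝ) + (G.edgeSet.ncard : ℝ) / 6 + 2 / L * n =
        (L * (12 * F.card + 2 * G.edgeSet.ncard) + 24 * n) / (L * 12) := by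
      field_simp
      ring
    rw [e2]
    conv_lhs => rw [e1]
    exact div_le_div_of_nonneg_right h3 (by positivity)
  linarith

end Frag.K4
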