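import Pool.Agent.Work.MP_547619_kz.Defs

/-!
# MP_547619_co, THEOREM K14 (note 3328): definitions and block statements

Graphs of maximum degree at most `4` without induced `K_(1,4)`.  Every docstring is the full proof
of its block.  The definitions `dg, ed2, sz, PW, Ej, Clsd, Keep` and the finished blocks
`p_TUT, p_KPF, p_KSM, p_KUN, p_KTW, p_LOW, p_CT1` are in `Work/MP_547619_kz` (namespace `Frag.Kz`).

Files `B_X.lean`: `import Pool.Agent.Work.MP_547619_k4.Defs`, `namespace Frag.K4`,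
`open SimpleGraph Frag.Kz`, theorem `p_X (h1 : S_Y) … : S_X` with the blocks of the column `uses` as
hypotheses in that order (`S_CT1, S_TUT, S_KPF, S_KSM, S_KUN, S_KTW` are the ones of `Frag.Kz`;
everything else is in `Frag.K4`).
-/

set_option autoImplicit false

namespace Frag.K4

open SimpleGraph Frag.Kz

/-- The class: maximum degree at most four, no vertex with four pairwise non-adjacent neighbours. -/
def K14 : GraphClass := fun n G => maxDegClass 4 n G ∧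
  ∀ (v : Fin n) (s : Finset (Fin n)), s.card = 4 → (∀ x ∈ s, G.Adj v x) →
    ∃ x ∈ s, ∃ y ∈ s, G.Adj x y

/-- The local hypothesis on `W` (hereditary). -/
structure Good {n : ℕ} (G : SimpleGraph (Fin n)) (W : Finset (Fin n)) : Prop where
  deg : ∀ v ∈ W, dg G W v ≤ 4
  tri : ∀ v ∈ W, dg G W v = 4 → ∃ a ∈ W, ∃ b ∈ W, G.Adj v a ∧ G.Adj v b ∧ G.Adj a b

/-- The terminal situation of the induction. -/
structure Term (K : ℕ) {n : ℕ} (G : SimpleGraph (Fin n)) (W : Finset (Fin n)) : Prop where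
  deg : ∀ v ∈ W, dg G W v ≤ 4
  nog : ∀ T Z : Finset (Fin n), T ⊆ Z → Z ⊆ W → Z.Nonempty → T.card ≤ K →
    (∀ t ∈ T, ∀ u ∈ W, G.Adj t u → u ∈ Z) →
    12 * T.card + ed2 G W < 12 * Z.card + ed2 G (W \ Z)

open Classical in
/-- The number of edges at `v` (in `W`) with the point `p`; `col u v` is the point of the edge `uv`. -/
noncomputable def dp {n : ℕ} (G : SimpleGraph (Fin n)) (W : Finset (Fin n))
    (col : Fin n → Fin n → ℕ) (v : Fin n) (p : ℕ) : ℕ :=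
  (W.filter (fun u => G.Adj v u ∧ col v u = p)).card

/-- A system of pieces and private points: every vertex has three points, every edge `uv` has a point
`col u v` of both ends, a point with `s ≥ 2` vertices has `2 s - 3` edges (`∑ dp` is twice that). -/
structure Sys {n : ℕ} (G : SimpleGraph (Fin n)) (W : Finset (Fin n)) (pts : Fin n → Finset ℕ)
    (col : Fin n → Fin n → ℕ) : Prop where
  card3 : ∀ v ∈ W, (pts v).card = 3
  symm : ∀ u ∈ W, ∀ v ∈ W, G.Adj u v → col u v = col v u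
  mem : ∀ u ∈ W, ∀ v ∈ W, G.Adj u v → col u v ∈ pts u
  cnt : ∀ p, 2 ≤ sz W pts p → ∑ v ∈ W, dp G W col v p + 6 = 4 * sz W pts p
  size : ∀ p, sz W pts p ≤ 6
  one : ∀ v ∈ W, ∀ p ∈ pts v, 2 ≤ sz W pts p → 1 ≤ dp G W col v p
  two : ∀ v ∈ W, ∀ p ∈ pts v, 3 ≤ sz W pts p → 2 ≤ dp G W col v p
  tri : ∀ a ∈ W, ∀ b ∈ W, ∀ c ∈ W, G.Adj a b → G.Adj b c → G.Adj a c →
    sz W pts (col a b) = 2 → sz W pts (col b c) = 2 → sz W pts (col a c) = 2 → False

/-- The vertices of `W` with one or two points in `C`. -/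
def XX {n : ℕ} (W : Finset (Fin n)) (pts : Fin n → Finset ℕ) (C : Finset ℕ) : Finset (Fin n) :=
  Ej W pts C 1 ∪ Ej W pts C 2

/-- The vertices of `W` with a point in `C`. -/
def ZZ {n : ℕ} (W : Finset (Fin n)) (pts : Fin n → Finset ℕ) (C : Finset ℕ) : Finset (Fin n) :=
  Ej W pts C 3 ∪ XX W pts C

/-- The number of edges at `v` with a point in `C`. -/
noncomputable def dc {n : ℕ} (G : SimpleGraph (Fin n)) (W : Finset (Fin n))
    (pts : Fin n → Finset ℕ) (col : Fin n → Fin n → ℕ) (C : Finset ℕ) (v : Fin n) : ℕ :=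
  ∑ p ∈ pts v ∩ C, dp G W col v p

/-- The number of edges at `v` with a point outside `C`. -/
noncomputable def gc {n : ℕ} (G : SimpleGraph (Fin n)) (W : Finset (Fin n))
    (pts : Fin n → Finset ℕ) (col : Fin n → Fin n → ℕ) (C : Finset ℕ) (v : Fin n) : ℕ :=
  ∑ p ∈ pts v \ C, dp G W col v p

/-- The number of private points in `C`. -/
def pr {n : ℕ} (W : Finset (Fin n)) (pts : Fin n → Finset ℕ) (C : Finset ℕ) : ℕ :=
  (C.filter (fun p => sz W pts p = 1)).card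

/-! ### A. the system of pieces -/

open Classical in
/-- The vertices of degree four in no triangle of the family. -/
noncomputable def Xs {n : ℕ} (G : SimpleGraph (Fin n)) (W : Finset (Fin n))
    (TT : Finset (Finset (Fin n))) : Finset (Fin n) :=
  W.filter (fun x => dg G W x = 4 ∧ ∀ τ ∈ TT, x ∉ τ)

/-- A maximal family `TT` of triangles, pairwise with at most one common vertex, and for every
`x ∈ Xs` a triangle `ta x` of the family with two vertices `bs x` adjacent to `x`. -/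
structure Fam {n : ℕ} (G : SimpleGraph (Fin n)) (W : Finset (Fin n)) (TT : Finset (Finset (Fin n)))
    (ta bs : Fin n → Finset (Fin n)) : Prop where
  sub : ∀ τ ∈ TT, τ ⊆ W
  card : ∀ τ ∈ TT, τ.card = 3
  adj : ∀ τ ∈ TT, ∀ a ∈ τ, ∀ b ∈ τ, a ≠ b → G.Adj a b
  dis : ∀ τ ∈ TT, ∀ τ' ∈ TT, τ ≠ τ' → (τ ∩ τ').card ≤ 1
  max : ∀ a ∈ W, ∀ b ∈ W, ∀ c ∈ W, G.Adj a b → G.Adj b c → G.Adj a c →
    ∃ τ ∈ TT, (a ∈ τ ∧ b ∈ τ) ∨ (b ∈ τ ∧ c ∈ τ) ∨ (a ∈ τ ∧ c ∈ τ)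
  att : ∀ x ∈ Xs G W TT, ta x ∈ TT ∧ bs x ⊆ ta x ∧ (bs x).card = 2 ∧ ∀ y ∈ bs x, G.Adj x y

/-- `u v` is an edge of the piece of `τ`. -/
def RR {n : ℕ} (G : SimpleGraph (Fin n)) (W : Finset (Fin n)) (TT : Finset (Finset (Fin n)))
    (ta bs : Fin n → Finset (Fin n)) (τ : Finset (Fin n)) (u v : Fin n) : Prop :=
  (u ∈ τ ∧ v ∈ τ ∧ u ≠ v) ∨ (u ∈ Xs G W TT ∧ ta u = τ ∧ v ∈ bs u) ∨
    (v ∈ Xs G W TT ∧ ta v = τ ∧ u ∈ bs v)

/-- FAM (100 lines). Among the finitely many `TT ⊆ W.powersetCard 3` with `adj` and `dis` take one of maximal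
cardinality (`Finset.exists_max_image`, `∅` is one).  `max`: otherwise `τ₀ = {a, b, c}` has at most one common
vertex with every `τ ∈ TT` (two common vertices are two of `a, b, c` in `τ`) and is not in `TT`, so
`insert τ₀ TT` is larger.  `att`: for `x ∈ Xs` take `a, b` from `Good.tri` (`dg = 4`), apply `max` to `x, a, b`:
`x ∉ τ`, so `a, b ∈ τ`: `ta x = τ`, `bs x = {a, b}` (choice; anything for other `x`). -/
def S_FAM : Prop := ∀ (n : ℕ) (G : SimpleGraph (Fin n)) (W : Finset (Fin n)), Good G W →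
  ∃ (TT : Finset (Finset (Fin n))) (ta bs : Fin n → Finset (Fin n)), Fam G W TT ta bs

open Classical in
/-- PCN (130 lines). Let `τ ∈ TT`, `R = RR … τ`, `A = (Xs).filter (ta x = τ)`.  `A` is disjoint from `τ` (`Xs` is
uncovered).  For `v ∈ τ`: `W.filter (R v) = τ.erase v ∪ A.filter (v ∈ bs x)`, disjoint, of card `2 + k_v`.  For
`v ∈ A`: `W.filter (R v) = bs v` (`bs v ⊆ τ ⊆ W`), card `2` (third case of `RR`: `u ∈ Xs`, `v ∈ bs u ⊆ ta u = τ`,
impossible as `v` is uncovered).  For other `v ∈ W`: no `u` with `R v u` (second case: `v ∈ A`; third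
case: `v ∈ bs u ⊆ τ`).  So `W.filter (∃ u, R v u) = τ ∪ A`, card `3 + |A|`, and
`∑_v = ∑_(v ∈ τ) (2 + k_v) + 2 |A| = 6 + 4 |A|` as `∑_(v ∈ τ) k_v = ∑_(x ∈ A) |bs x| = 2 |A|` (`bs x ⊆ τ`;
`Finset.sum_card_bipartiteAbove_eq_sum_card_bipartiteBelow` or `Finset.card_filter` and `sum_comm`).
`|A| ≤ 3`: the neighbours of `v ∈ τ` in `W` contain `τ.erase v ∪ A.filter (v ∈ bs x)`, so `2 + k_v ≤ dg v ≤ 4`,
`2 |A| = ∑ k_v ≤ 6`. -/
def S_PCN : Prop := ∀ (n : ℕ) (G : SimpleGraph (Fin n)) (W : Finset (Fin n))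
  (TT : Finset (Finset (Fin n))) (ta bs : Fin n → Finset (Fin n)), Good G W → Fam G W TT ta bs →
  ∀ τ ∈ TT,
    (∀ v ∈ W, (∃ u, RR G W TT ta bs τ v u) → 2 ≤ (W.filter (RR G W TT ta bs τ v)).card) ∧
    (W.filter (fun v => ∃ u, RR G W TT ta bs τ v u)).card ≤ 6 ∧
    ∑ v ∈ W, (W.filter (RR G W TT ta bs τ v)).card + 6 =
      4 * (W.filter (fun v => ∃ u, RR G W TT ta bs τ v u)).card

open Classical in
/-- PCE (90 lines, uses FAM PCN). Take `TT, ta, bs` from FAM and `R = RR …`.  (2): `R τ u v` implies `u, v ∈ W`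
(`τ ⊆ W`, `Xs ⊆ W`, `bs u ⊆ ta u = τ`), `G.Adj u v` (`adj`, `att`), and `R τ v u`.  (3) uniqueness: both first kind:
`u ≠ v` in `τ ∩ τ'`, so `τ = τ'` (`dis`, `Finset.one_lt_card`); first kind and `u ∈ Xs` (or `v ∈ Xs`): against
uncovered; `u ∈ Xs` twice: `τ = ta u = τ'`; `u ∈ Xs` and `v ∈ Xs`, `u ∈ bs v ⊆ ta v ∈ TT`: against `u` uncovered.
(4), (5): PCN.  (6): `dg v = 4`: if `v ∈ τ` for some `τ ∈ TT` then `R τ v u` for another `u ∈ τ`
(`card = 3`); otherwise `v ∈ Xs`, `τ = ta v`, `u ∈ bs v` (`card = 2`).  (7): `max` (two of `a, b, c` are in `τ`;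
they are distinct by `G.Adj`). -/
def S_PCE : Prop := ∀ (n : ℕ) (G : SimpleGraph (Fin n)) (W : Finset (Fin n)), Good G W →
  ∃ (TT : Finset (Finset (Fin n))) (R : Finset (Fin n) → Fin n → Fin n → Prop),
    (∀ τ ∈ TT, τ.card = 3) ∧
    (∀ τ ∈ TT, ∀ u v, R τ u v → u ∈ W ∧ v ∈ W ∧ G.Adj u v ∧ R τ v u) ∧
    (∀ τ ∈ TT, ∀ τ' ∈ TT, ∀ u v, R τ u v → R τ' u v → τ = τ') ∧
    (∀ τ ∈ TT, ∀ v ∈ W, (∃ u, R τ v u) → 2 ≤ (W.filter (R τ v)).card) ∧
    (∀ τ ∈ TT, (W.filter (fun v => ∃ u, R τ v u)).card ≤ 6 ∧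
      ∑ v ∈ W, (W.filter (R τ v)).card + 6 = 4 * (W.filter (fun v => ∃ u, R τ v u)).card) ∧
    (∀ v ∈ W, dg G W v = 4 → ∃ τ ∈ TT, ∃ u, R τ v u) ∧
    (∀ a ∈ W, ∀ b ∈ W, ∀ c ∈ W, G.Adj a b → G.Adj b c → G.Adj a c →
      ∃ τ ∈ TT, R τ a b ∨ R τ b c ∨ R τ a c)

open Classical in
/-- The points of the edges at `v`. -/
noncomputable def np {n : ℕ} (G : SimpleGraph (Fin n)) (W : Finset (Fin n))
    (col : Fin n → Fin n → ℕ) (v : Fin n) : Finset ℕ :=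
  (W.filter (fun u => G.Adj v u)).image (col v)

/-- A colouring of the edges by pieces. -/
structure Colr {n : ℕ} (G : SimpleGraph (Fin n)) (W : Finset (Fin n)) (col : Fin n → Fin n → ℕ) :
    Prop where
  symm : ∀ u ∈ W, ∀ v ∈ W, G.Adj u v → col u v = col v u
  three : ∀ v ∈ W, (np G W col v).card ≤ 3
  size : ∀ p, sz W (np G W col) p ≤ 6
  cnt : ∀ p, 1 ≤ sz W (np G W col) p →
    ∑ v ∈ W, dp G W col v p + 6 = 4 * sz W (np G W col) p
  two : ∀ v ∈ W, ∀ p ∈ np G W col v, 3 ≤ sz W (np G W col) p → 2 ≤ dp G W col v p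
  tri : ∀ a ∈ W, ∀ b ∈ W, ∀ c ∈ W, G.Adj a b → G.Adj b c → G.Adj a c →
    sz W (np G W col) (col a b) = 2 → sz W (np G W col) (col b c) = 2 →
    sz W (np G W col) (col a c) = 2 → False

/-- COL (200 lines, uses PCE). `enc = Encodable.encode : Finset (Fin n) → ℕ` (injective).
`col u v = enc τ` if `R τ u v` for some `τ ∈ TT` (choice; unique by (3)), otherwise `enc {u, v}`.
(k1) For `u, v ∈ W` adjacent and `τ ∈ TT`: `col u v = enc τ ↔ R τ u v` (a pair has card `2 ≠ 3`).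
(k2) If no `τ ∈ TT` has `R τ a b` (`a, b ∈ W` adjacent), `p = enc {a, b}`: for `u, v ∈ W` adjacent,
`col u v = p ↔ {u, v} = {a, b}` (`→`: cards; `←`: then `u v` is `a b` or `b a` and `R` is symmetric).
Symmetry: both cases.  Let `1 ≤ sz W np p`: `p = col a b` for some adjacent `a, b ∈ W`.
Case `R τ a b`, `τ ∈ TT`: `p = enc τ`, `dp v p = (W.filter (R τ v)).card` and `p ∈ np v ↔ ∃ u, R τ v u` for `v ∈ W`
(k1), so `cnt`, `size`, `two` are (5), (4).  Case no such `τ`: `p = enc {a, b}`; by (k2) `dp a p = dp b p = 1`,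
`dp v p = 0` for other `v`, `{v ∈ W | p ∈ np v} = {a, b}`, so `sz = 2`, `cnt` is `2 + 6 = 8`, `two` is empty.
(`size` for `sz = 0`: trivial.)
`three`: `dg v ≤ 3`: `Finset.card_image_le`.  `dg v = 4`: (6) and (4): two different neighbours `u₁ ≠ u₂` with
`R τ v u_i`, so `col v u₁ = col v u₂ = enc τ` and the image is the image of the four neighbours without `u₁`, card `≤ 3`.
`tri`: if `R τ a b` for some `τ ∈ TT` then `sz W np (col a b) ≥ 3` (`4 sz = ∑ dp + 6 ≥ 2 sz + 6` by (4), or: `a` has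
two neighbours in the piece), not `2`; so none of `a b`, `b c`, `a c` has a `τ`, against (7). -/
def S_COL : Prop := ∀ (n : ℕ) (G : SimpleGraph (Fin n)) (W : Finset (Fin n)), Good G W →
  ∃ col : Fin n → Fin n → ℕ, Colr G W col

/-- PRV (60 lines). All `np v`, `v ∈ W`, are subsets of `Finset.range B` for some `B`.
`pts v = np v ∪ (Finset.range (3 - (np v).card)).image (fun i => B + 3 * v.val + i)`; the second part is disjoint from
all `np u` and from the second parts of the other vertices (`i < 3`). -/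
def S_PRV : Prop := ∀ (n : ℕ) (W : Finset (Fin n)) (np : Fin n → Finset ℕ),
  (∀ v ∈ W, (np v).card ≤ 3) → ∃ pts : Fin n → Finset ℕ,
    (∀ v ∈ W, (pts v).card = 3) ∧ (∀ v ∈ W, np v ⊆ pts v) ∧
    (∀ v ∈ W, ∀ p ∈ pts v, p ∉ np v → sz W pts p = 1) ∧
    (∀ u ∈ W, ∀ v ∈ W, ∀ p ∈ np u, p ∈ pts v → p ∈ np v)

/-- SYS (90 lines, uses COL PRV). `col` from COL, `pts` from PRV for `np G W col`.  For `p ∈ np u`, `u ∈ W`:
`sz W pts p = sz W np p` (the same vertices, PRV (2), (4)).  If `2 ≤ sz W pts p` then some `v ∈ W` has `p ∈ pts v`, and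
`p ∈ np v` (else `sz = 1`, PRV (3)).  So `cnt`, `size`, `two` come from `Colr`; `one`: `p ∈ np v` is `col v u` for a
neighbour `u ∈ W`, which is counted in `dp`; `mem`: `col u v ∈ np u ⊆ pts u`; `tri`: `col a b ∈ np a` etc. -/
def S_SYS : Prop := ∀ (n : ℕ) (G : SimpleGraph (Fin n)) (W : Finset (Fin n)), Good G W →
  ∃ (pts : Fin n → Finset ℕ) (col : Fin n → Fin n → ℕ), Sys G W pts col

/-! ### B. the component claim -/

/-- DSP (50 lines). `dg = ∑_(p ∈ pts v) dp` (`Finset.card_eq_sum_card_fiberwise` for `col v`, `mem`), and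
`pts v` is the disjoint union of `pts v ∩ C` and `pts v \ C` (`Finset.sum_inter_add_sum_sdiff` or similar). -/
def S_DSP : Prop := ∀ (n : ℕ) (G : SimpleGraph (Fin n)) (W : Finset (Fin n))
  (pts : Fin n → Finset ℕ) (col : Fin n → Fin n → ℕ) (C : Finset ℕ), Sys G W pts col →
  ∀ v ∈ W, dc G W pts col C v + gc G W pts col C v = dg G W v

/-- DCS (70 lines). `∑_v dc v = ∑_v ∑_(p ∈ C) dp v p` (for `p ∉ pts v` `dp v p = 0` by `mem`) `= ∑_(p ∈ C) ∑_v dp v p`.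
For `p ∈ C ⊆ PW` `sz p ≥ 1`.  If `sz p ≥ 2`: `cnt`.  If `sz p = 1`: all `dp v p = 0` (an edge `v u` with
`col v u = p` has `p ∈ pts v` and, by `symm`, `p ∈ pts u`, two vertices), so `0 + 6 = 4 + 2`.  Sum over `C`. -/
def S_DCS : Prop := ∀ (n : ℕ) (G : SimpleGraph (Fin n)) (W : Finset (Fin n))
  (pts : Fin n → Finset ℕ) (col : Fin n → Fin n → ℕ) (C : Finset ℕ), Sys G W pts col →
  C ⊆ PW W pts →
  ∑ v ∈ W, dc G W pts col C v + 6 * C.card = 4 * ∑ p ∈ C, sz W pts p + 2 * pr W pts C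

/-- LBD (90 lines). `π(v) = ((pts v ∩ C).filter (sz = 1)).card`, `πT = ∑_(v ∈ Ej 3) π(v)`, `πX = ∑_(v ∈ XX) π(v)`.
`(pts v ∩ C).card ≤ dc v + π(v)` for `v ∈ W`: `1 ≤ dp v p` for the points with `2 ≤ sz` (`one`), the others have `sz = 1`
(`sz ≥ 1` because of `v`).  `∑_(v ∈ W) π(v) = ∑_(p ∈ C, sz p = 1) sz p = pr C` (double counting, `CT1_swap` in
MP_547619_kz/B_CT1.lean is a model), and `π(v) = 0` outside `Ej 3 ∪ XX` (disjoint, `(pts v ∩ C).card ≤ 3`).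
Last claim: `π(v) = 0` for all `v ∈ Ej 3`, `pts v ⊆ C`. -/
def S_LBD : Prop := ∀ (n : ℕ) (G : SimpleGraph (Fin n)) (W : Finset (Fin n))
  (pts : Fin n → Finset ℕ) (col : Fin n → Fin n → ℕ) (C : Finset ℕ), Sys G W pts col →
  ∃ πT πX : ℕ, πT + πX = pr W pts C ∧
    3 * (Ej W pts C 3).card ≤ ∑ v ∈ Ej W pts C 3, dc G W pts col C v + πT ∧
    2 * (Ej W pts C 2).card + (Ej W pts C 1).card ≤ ∑ v ∈ XX W pts C, dc G W pts col C v + πX ∧
    (πT = 0 → ∀ v ∈ Ej W pts C 3, ∀ p ∈ pts v, 2 ≤ sz W pts p)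

/-- NBT (40 lines). `pts t ⊆ C` (`(pts t ∩ C).card = 3 = (pts t).card`), `col t u ∈ pts t` and, by `symm`, `∈ pts u`,
so `(pts u ∩ C).card` is `1`, `2` or `3`. -/
def S_NBT : Prop := ∀ (n : ℕ) (G : SimpleGraph (Fin n)) (W : Finset (Fin n))
  (pts : Fin n → Finset ℕ) (col : Fin n → Fin n → ℕ) (C : Finset ℕ), Sys G W pts col →
  ∀ t ∈ Ej W pts C 3, ∀ u ∈ W, G.Adj t u → u ∈ ZZ W pts C ∧ col t u ∈ C

/-- EDZ (60 lines). For `Z ⊆ W`: `dg W u = dg Z u + dg (W \ Z) u`; `∑_(v ∈ W \ Z) dg Z v = ∑_(u ∈ Z) dg (W \ Z) u`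
(`G.Adj` symmetric, `Finset.card_filter`, `sum_comm`); split `ed2 G W` over `Z` and `W \ Z`. -/
def S_EDZ : Prop := ∀ (n : ℕ) (G : SimpleGraph (Fin n)) (W Z : Finset (Fin n)), Z ⊆ W →
  (∀ u, dg G W u = dg G Z u + dg G (W \ Z) u) ∧
  ed2 G (W \ Z) + ∑ u ∈ Z, dg G Z u + 2 * ∑ u ∈ Z, dg G (W \ Z) u = ed2 G W

/-- ESZ (110 lines, uses DSP NBT EDZ). `Z = ZZ`, `T = Ej 3`, `X = XX`, disjoint.  `∑_W dc = ∑_T dc + ∑_X dc` (`dc v = 0` if
`pts v ∩ C = ∅`).  By EDZ it suffices: for `u ∈ T`: `dc u ≤ dg Z u + 2 dg (W \ Z) u` (DSP: `dc u ≤ dg W u`, and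
`dg W = dg Z + dg (W \ Z)`); for `u ∈ X`: `dc u + 2 gc u ≤ dg Z u + 2 dg (W \ Z) u + (|X| - 1)`: by DSP and EDZ
`dc u + gc u = dg Z u + dg (W \ Z) u`, so it is enough that `dg Z u ≤ dc u + (|X| - 1)`: the neighbours `u' ∈ Z` of `u`
with `col u u' ∈ C` are at most `dc u` many (`dc u` counts the neighbours in `W` with `col u u' ∈ pts u ∩ C`), the
others are not in `T` (NBT for `u'`, `symm`: `col u u' = col u' u ∈ C`), so in `X.erase u`. -/
def S_ESZ : Prop := ∀ (n : ℕ) (G : SimpleGraph (Fin n)) (W : Finset (Fin n))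
  (pts : Fin n → Finset ℕ) (col : Fin n → Fin n → ℕ) (C : Finset ℕ), Sys G W pts col →
  ed2 G (W \ ZZ W pts C) + ∑ v ∈ W, dc G W pts col C v
      + 2 * ∑ v ∈ XX W pts C, gc G W pts col C v
    ≤ ed2 G W + (XX W pts C).card * ((XX W pts C).card - 1)

/-- DZZ (60 lines). For `v ∈ W \ ZZ` `dc v = 0` (`pts v ∩ C = ∅`).  For `v ∈ ZZ`: `dc v` is the number of neighbours
`u ∈ W` with `col v u ∈ pts v ∩ C` (`card_biUnion` over the points, or `≤` by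
`Finset.card_eq_sum_card_fiberwise`); such `u` has the point `col v u ∈ C` (`symm`, `mem`), so `u ∈ ZZ`, `u ≠ v`:
`dc v ≤ |ZZ| - 1`. -/
def S_DZZ : Prop := ∀ (n : ℕ) (G : SimpleGraph (Fin n)) (W : Finset (Fin n))
  (pts : Fin n → Finset ℕ) (col : Fin n → Fin n → ℕ) (C : Finset ℕ), Sys G W pts col →
  ∑ v ∈ W, dc G W pts col C v ≤ (ZZ W pts C).card * ((ZZ W pts C).card - 1)

/-- AR (80 lines). Let `x = a + b`.  `A ≤ 4x - DX ≤ 4x - 2a - b + πX`, so the last hypothesis gives `5b + 2a + π ≤ 5`: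
`b ≤ 1`, `a ≤ 2`, `π ≤ 5` (`omega`).  Split into these cases (`interval_cases`); `D + 2A < 12x + x(x-1)` bounds `D`, and
`D ≥ 3t + 2a + b - π` bounds `t` (`t ≤ 12`); `c` is odd (`c = 2q + 1`).  In each case `interval_cases t` (the product
`(t + a + b) * (t + a + b - 1)` becomes a number) and `omega`.  (All solutions were found by brute force: only the two
of the conclusion.) -/
def S_AR : Prop := ∀ t a b c π πT πX D DT DX A : ℕ, Odd c → D = DT + DX →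
  D + 6 * c = 4 * (3 * t + 2 * a + b) + 2 * π → c ≤ 3 * t + 2 * a + b →
  A + DX ≤ 4 * (a + b) → 2 * a + b ≤ DX + πX → 3 * t ≤ DT + πT → πT + πX = π → DT ≤ 4 * t →
  D ≤ (t + a + b) * (t + a + b - 1) → D + 2 * A < 12 * (a + b) + (a + b) * (a + b - 1) →
  8 * b + 4 * a + 2 * π < 6 + A →
    (t = 2 ∧ a = 2 ∧ b = 0 ∧ πT = 0 ∧ DT = 6) ∨ (t = 3 ∧ a = 2 ∧ b = 0 ∧ πT = 0 ∧ DT = 9 ∧ DX = 3)

/-- ST1 (100 lines, uses DSP NBT). `T = Ej 3`.  For `t ∈ T`: `pts t ⊆ C`, three points with `1 ≤ dp` (`one`), so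
`dc t ≥ 3`; sum `6`, `|T| = 2`: `dc t = 3` and all `dp t p = 1`, so `sz p < 3` (`two`), `sz p = 2`.  `dg t = dc t = 3`
(DSP, `gc t = 0`).  `N(t) ⊆ ZZ.erase t` (NBT), `|ZZ| = 4`, so `t` is adjacent to all other elements of `ZZ`
(`Finset.eq_of_subset_of_card_le`).  Let `T = {t, t'}`, `x ∈ Ej 2` (`card = 2`): `t t'`, `t x`, `t' x` are edges and
their points are in `pts t`, `pts t`, `pts t'` (`mem`), of size `2`: against `Sys.tri`. -/
def S_ST1 : Prop := ∀ (n : ℕ) (G : SimpleGraph (Fin n)) (W : Finset (Fin n))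
  (pts : Fin n → Finset ℕ) (col : Fin n → Fin n → ℕ) (C : Finset ℕ), Sys G W pts col →
  (Ej W pts C 3).card = 2 → (Ej W pts C 2).card = 2 → (Ej W pts C 1).card = 0 →
  ∑ v ∈ Ej W pts C 3, dc G W pts col C v = 6 →
  (∀ v ∈ Ej W pts C 3, ∀ p ∈ pts v, 2 ≤ sz W pts p) → False

/-- ST2 (120 lines, uses DSP NBT). As in ST1: `dc t = 3 = dg t` for `t ∈ T` and all points of `t` have size `2`
(sum `9`, `|T| = 3`).  The neighbours of `t` are in `ZZ = T ∪ XX` (NBT).  The number of pairs `(t, x)`, `t ∈ T`, `x ∈ XX`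
adjacent is at most `∑_(x ∈ XX) dc x = 3` (for fixed `x` the neighbours `t ∈ T` have `col x t = col t x ∈ C`, NBT,
`symm`, and `∈ pts x`, so they are counted in `dc x`).  So `∑_(t ∈ T) #{t' ∈ T adjacent} ≥ 9 - 3 = 6`; each term is
`≤ 2` (`T.erase t`), so all are `2`: `T = {t₁, t₂, t₃}` is a triangle, its edges have points of size `2`:
against `Sys.tri`. -/
def S_ST2 : Prop := ∀ (n : ℕ) (G : SimpleGraph (Fin n)) (W : Finset (Fin n))
  (pts : Fin n → Finset ℕ) (col : Fin n → Fin n → ℕ) (C : Finset ℕ), Sys G W pts col →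
  (Ej W pts C 3).card = 3 → ∑ v ∈ Ej W pts C 3, dc G W pts col C v = 9 →
  ∑ v ∈ XX W pts C, dc G W pts col C v = 3 →
  (∀ v ∈ Ej W pts C 3, ∀ p ∈ pts v, 2 ≤ sz W pts p) → False

/-- CLC (130 lines, uses CT1 DSP DCS LBD NBT ESZ DZZ AR ST1 ST2). `t, a, b` = cards of `Ej 3, Ej 2, Ej 1`,
`T = Ej 3`, `X = XX`, `Z = ZZ`, disjoint unions, `|X| = a + b`, `|Z| = t + a + b`.  Suppose the claim fails.
`c ≥ 1` and a point of `C ⊆ PW` is in some `pts v`, so `Z` is nonempty.  CT1: `∑_C sz = 3t + 2a + b`; `sz ≥ 1` on `C`, so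
`c ≤ 3t + 2a + b`; `sz ≤ 6`, so `3t ≤ 6c`, `t ≤ 2c ≤ K`.  `Term.nog` for `T ⊆ Z` (NBT) and ESZ:
`D + 2A < 12(a + b) + (a + b)(a + b - 1)`, `D = ∑_W dc = DT + DX`, `A = ∑_X gc`.  DCS and CT1:
`D + 6c = 4(3t + 2a + b) + 2π`, `π = pr C`.  DSP and `Term.deg`: `A + DX ≤ 4(a + b)`, `DT ≤ 4t`.  LBD gives `πT, πX`.
DZZ.  AR leaves two cases, ST1 and ST2 exclude them. -/
def S_CLC : Prop := ∀ (K n : ℕ) (G : SimpleGraph (Fin n)) (W : Finset (Fin n))
  (pts : Fin n → Finset ℕ) (col : Fin n → Fin n → ℕ) (C : Finset ℕ), Term K G W →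
  Sys G W pts col → C ⊆ PW W pts → Odd C.card → 2 * C.card ≤ K →
  6 + ∑ v ∈ XX W pts C, gc G W pts col C v
    ≤ 8 * (Ej W pts C 1).card + 4 * (Ej W pts C 2).card + 2 * pr W pts C

/-- CHG (130 lines, uses DSP). `h(v) = 4 |pts v ∩ U| - dc_U(v) ≥ 0` for `v ∈ W` (if `pts v ∩ U = ∅` both are `0`;
otherwise `dc_U(v) ≤ dg v ≤ 4`).  `4 ∑_(p ∈ U) sz p = ∑_(v ∈ W) 4 |pts v ∩ U|`.  For `C ∈ CC`, `v ∈ XX C`: `v` meets `C`, so
all its points are in `C` or `U` (`Clsd`), `C`, `U` disjoint: `pts v \ C = pts v ∩ U`, so `gc_C(v) = dc_U(v)` and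
`8 [v ∈ Ej 1] + 4 [v ∈ Ej 2] = 4 |pts v ∩ U|` (`|pts v \ C| = 3 - |pts v ∩ C|`).  A vertex is in `XX C` for at most one
`C ∈ CC` (`bar_unique` in MP_547619_kz/B_BAR.lean).  So `∑_C ∑_(v ∈ XX C) h(v) ≤ ∑_(v ∈ W) h(v)`
(`Finset.sum_biUnion`, subset of `W`).  (Work in `ℤ` or with `h` in `ℕ`.) -/
def S_CHG : Prop := ∀ (n : ℕ) (G : SimpleGraph (Fin n)) (W : Finset (Fin n))
  (pts : Fin n → Finset ℕ) (col : Fin n → Fin n → ℕ) (U : Finset ℕ) (CC : Finset (Finset ℕ)),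
  Sys G W pts col → (∀ v ∈ W, dg G W v ≤ 4) →
  (∀ C ∈ CC, Disjoint C U ∧ Clsd W pts U C) →
  (∀ C ∈ CC, ∀ C' ∈ CC, C ≠ C' → Disjoint C C') →
  ∑ C ∈ CC, (8 * (Ej W pts C 1).card + 4 * (Ej W pts C 2).card) + ∑ v ∈ W, dc G W pts col U v
    ≤ ∑ C ∈ CC, ∑ v ∈ XX W pts C, gc G W pts col C v + 4 * ∑ p ∈ U, sz W pts p

/-- BAR (120 lines, uses CT1 DSP DCS CLC CHG). `N = |PW|`.  DCS for `C = PW`: `∑_W dc = ed2` (DSP, `gc = 0` as
`pts v ⊆ PW`), `∑_(PW) sz = 3 |W|` (CT1: `Ej PW 3 = W`), so `ed2 + 6N = 12 |W| + 2 pr(PW)`.  DCS for `U`, CHG and the sum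
of CLC over `CC`: `6 |CC| + 2 pr(U) ≤ 6 |U| + 2 ∑_C pr(C)`.  `∑_C pr(C) ≤ pr(PW)` (disjoint subsets of `PW`:
`Finset.card_biUnion`).  Together `12 |W| + 6 |CC| ≤ 12 |W| + 6 |U| + 2 pr(PW) = 6 |U| + ed2 + 6N`. -/
def S_BAR : Prop := ∀ (K n : ℕ) (G : SimpleGraph (Fin n)) (W : Finset (Fin n))
  (pts : Fin n → Finset ℕ) (col : Fin n → Fin n → ℕ) (U : Finset ℕ) (CC : Finset (Finset ℕ)),
  Term K G W → Sys G W pts col → U ⊆ PW W pts →
  (∀ C ∈ CC, C ⊆ PW W pts ∧ Disjoint C U ∧ Clsd W pts U C ∧ Odd C.card ∧ 2 * C.card ≤ K) →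
  (∀ C ∈ CC, ∀ C' ∈ CC, C ≠ C' → Disjoint C C') →
  12 * W.card + 6 * CC.card ≤ 6 * ((PW W pts).card + U.card) + ed2 G W

/-! ### C. the kept set and the induction -/

/-- MAT (110 lines, uses BAR TUT). The same as `p_MAT` in MP_547619_kz/B_MAT.lean with `r = 3` (all terms halved; the
components with `2 |C| > K ≥ 2L` are at most `N / L`). -/
def S_MAT : Prop := ∀ (K L n : ℕ) (G : SimpleGraph (Fin n)) (W : Finset (Fin n))
  (pts : Fin n → Finset ℕ) (col : Fin n → Fin n → ℕ), 1 ≤ L → 2 * L ≤ K → Term K G W →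
  Sys G W pts col →
  ∃ f : ℕ → ℕ, (∀ x ∈ PW W pts, f x ∈ PW W pts ∧ f (f x) = x ∧
      (f x ≠ x → ∃ v ∈ W, x ∈ pts v ∧ f x ∈ pts v)) ∧
    12 * W.card + 6 * ((PW W pts).filter (fun x => f x = x)).card
      ≤ 6 * ((PW W pts).card + (PW W pts).card / L + 1) + ed2 G W

/-- CHO (120 lines). `M = PW.filter (f x ≠ x)`.  Choose `ch x ∈ W` with `x, f x ∈ pts (ch x)` for `x ∈ M`, and
`g x = ch (min x (f x))`, so `g x = g (f x)` and `x, f x ∈ pts (g x)`.  `F = M.image g`.  For `v ∈ F` choose `x_v ∈ M` with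
`g x_v = v`; `own v = {x_v, f x_v}`, `h v` the third point of `v` (`kpt_pts` in MP_547619_kz/B_KPT.lean is a model).
Disjoint: a common element `y` of `own u`, `own v` gives `{x_u, f x_u} = {y, f y} = {x_v, f x_v}`, the same minimum,
`u = v`.  Count: `M ⊆ F.biUnion own`: for `x ∈ M`, `v = g x`: if `x ∉ own v` then also `f x ∉ own v` and `pts v` has four
elements `x, f x, x_v, f x_v`.  So `|M| ≤ 2 |F|` and `|PW| = |M| + |fixed|`. -/
def S_CHO : Prop := ∀ (n : ℕ) (W : Finset (Fin n)) (pts : Fin n → Finset ℕ) (f : ℕ → ℕ),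
  (∀ v ∈ W, (pts v).card = 3) →
  (∀ x ∈ PW W pts, f x ∈ PW W pts ∧ f (f x) = x ∧
      (f x ≠ x → ∃ v ∈ W, x ∈ pts v ∧ f x ∈ pts v)) →
  ∃ (F : Finset (Fin n)) (own : Fin n → Finset ℕ) (h : Fin n → ℕ), F ⊆ W ∧
    (∀ v ∈ F, pts v = insert (h v) (own v) ∧ h v ∉ own v) ∧
    (∀ u ∈ F, ∀ v ∈ F, u ≠ v → Disjoint (own u) (own v)) ∧
    (PW W pts).card ≤ 2 * F.card + ((PW W pts).filter (fun x => f x = x)).card

/-- KPT (90 lines, uses KPF). `G'.Adj u v ↔ u ≠ v ∧ (h u = h v ∨ h u ∈ own v ∨ h v ∈ own u)`.  KPF for `G'`, `s = 6`: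
`F.filter (h v = p) ⊆ W.filter (p ∈ pts v)`, `size`.  For adjacent `u, v ∈ F`: `p = col u v ∈ pts u`, `∈ pts v` (`symm`,
`mem`); if `p = h u` then `h u = h v` or `h u ∈ own v`; if `p ∈ own u` then `p ∉ own v` (disjoint), so `p = h v ∈ own u`.
So `G ≤ G'` on `F` and `Keep G' 7 F` gives `Keep G 7 F` (the same `H`). -/
def S_KPT : Prop := ∀ (n : ℕ) (G : SimpleGraph (Fin n)) (W : Finset (Fin n))
  (pts : Fin n → Finset ℕ) (col : Fin n → Fin n → ℕ) (F : Finset (Fin n))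
  (own : Fin n → Finset ℕ) (h : Fin n → ℕ), Sys G W pts col → F ⊆ W →
  (∀ v ∈ F, pts v = insert (h v) (own v) ∧ h v ∉ own v) →
  (∀ u ∈ F, ∀ v ∈ F, u ≠ v → Disjoint (own u) (own v)) → Keep G 7 F

/-- TRM (60 lines, uses SYS MAT CHO KPT; model: B_TRM.lean). `|PW| ≤ 3 |W|`.  From MAT and CHO:
`12 |W| ≤ 12 |F| + 6 (|PW| / L + 1) + ed2`; times `L`: `6 (|PW| + L) ≤ 24 |W|`. -/
def S_TRM : Prop := ∀ (K L n : ℕ) (G : SimpleGraph (Fin n)) (W : Finset (Fin n)), 1 ≤ L →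
  2 * L ≤ K → L ≤ W.card → Good G W → Term K G W →
  ∃ F ⊆ W, Keep G 7 F ∧ L * (12 * W.card) ≤ L * (12 * F.card + ed2 G W) + 24 * W.card

/-- HER (40 lines). `dg G W' v ≤ dg G W v ≤ 4`.  If `dg G W' v = 4` then `dg G W v = 4` and the neighbours of `v` in `W` and
in `W'` are the same set (`Finset.eq_of_subset_of_card_le`), so `a, b ∈ W'`. -/
def S_HER : Prop := ∀ (n : ℕ) (G : SimpleGraph (Fin n)) (W W' : Finset (Fin n)), Good G W →
  W' ⊆ W → Good G W'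

/-- IND (90 lines, uses KSM KUN HER TRM; model: B_IND.lean). Strong induction on `|W|`.  `|W| ≤ 2L + 8`: `F = W` (KSM).
If there are `T ⊆ Z ⊆ W`, `Z` nonempty, `|T| ≤ 2L`, neighbours of `T` in `Z`, `12 |Z| + ed2 (W \ Z) ≤ 12 |T| + ed2 W`: induction
for `W \ Z` (HER) gives `F'`, take `F' ∪ T` (KUN).  Otherwise `Term (2L) G W`: TRM (`Keep` is monotone in `k`). -/
def S_IND : Prop := ∀ (L n : ℕ) (G : SimpleGraph (Fin n)) (W : Finset (Fin n)), 1 ≤ L →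
  Good G W → ∃ F ⊆ W, Keep G (2 * L + 7) F ∧
    L * (12 * W.card) ≤ L * (12 * F.card + ed2 G W) + 24 * W.card

/-- GUN (60 lines). `dg G univ v = (G.neighborSet v).ncard ≤ 4`.  If it is `4`, the neighbours form a set `s` of card
`4`: the second part of `K14` gives adjacent `x, y ∈ s`. -/
def S_GUN : Prop := ∀ (n : ℕ) (G : SimpleGraph (Fin n)), K14 n G → Good G Finset.univ

/-- UPP (60 lines, uses KTW IND GUN; model: B_UPP.lean, `UPP_ed2`). `W = univ`, `S = univ \ F`: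
`12 n L ≤ L (12 |F| + 2 |E|) + 24 n`, divide by `12 L`. -/
def S_UPP : Prop := ∀ (L : ℕ), 1 ≤ L → ∀ (n : ℕ) (G : SimpleGraph (Fin n)), K14 n G →
  ∃ S : Finset (Fin n), (S.card : ℝ) ≤ (G.edgeSet.ncard : ℝ) / 6 + 2 / (L : ℝ) * n ∧
    TreeWidthLE (G.induce {v | v ∉ S}) (2 * L + 7)

/-- LOK (60 lines). Let `Q` be the family of cliques, `v` and `s` as in `K14`.  Every `x ∈ s` is with `v` in some
`q x ∈ Q` (`∃!`), `q x ∈ Q.filter (v ∈ q)`, a set of card `≤ 3`; `|s| = 4`, so `q x = q y` for some `x ≠ y`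
(`Finset.exists_ne_map_eq_of_card_lt_of_maps_to`), and `x, y` are adjacent (clique). -/
def S_LOK : Prop := ∀ (n : ℕ) (G : SimpleGraph (Fin n)), maxDegClass 4 n G → krauszClass 3 n G →
  K14 n G

end Frag.K4
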