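import Pool.Agent.Work.MP_547619_k4.Asm
import Pool.Agent.Work.MP_547619_k4.B_AR
import Pool.Agent.Work.MP_547619_k4.B_BAR
import Pool.Agent.Work.MP_547619_k4.B_CHG
import Pool.Agent.Work.MP_547619_k4.B_CHO
import Pool.Agent.Work.MP_547619_k4.B_CLC
import Pool.Agent.Work.MP_547619_k4.B_COL
import Pool.Agent.Work.MP_547619_k4.B_DCS
import Pool.Agent.Work.MP_547619_k4.B_DSP
import Pool.Agent.Work.MP_547619_k4.B_DZZ
import Pool.Agent.Work.MP_547619_k4.B_EDZ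
import Pool.Agent.Work.MP_547619_k4.B_ESZ
import Pool.Agent.Work.MP_547619_k4.B_FAM
import Pool.Agent.Work.MP_547619_k4.B_GUN
import Pool.Agent.Work.MP_547619_k4.B_HER
import Pool.Agent.Work.MP_547619_k4.B_IND
import Pool.Agent.Work.MP_547619_k4.B_KPT
import Pool.Agent.Work.MP_547619_k4.B_LBD
import Pool.Agent.Work.MP_547619_k4.B_LOK
import Pool.Agent.Work.MP_547619_k4.B_MAT
import Pool.Agent.Work.MP_547619_k4.B_NBT
import Pool.Agent.Work.MP_547619_k4.B_PCE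
import Pool.Agent.Work.MP_547619_k4.B_PCN
import Pool.Agent.Work.MP_547619_k4.B_PRV
import Pool.Agent.Work.MP_547619_k4.B_ST1
import Pool.Agent.Work.MP_547619_k4.B_ST2
import Pool.Agent.Work.MP_547619_k4.B_SYS
import Pool.Agent.Work.MP_547619_k4.B_TRM
import Pool.Agent.Work.MP_547619_k4.B_UPP
import Pool.Agent.Work.MP_547619_kz.B_CT1
import Pool.Agent.Work.MP_547619_kz.B_KPF
import Pool.Agent.Work.MP_547619_kz.B_KSM
import Pool.Agent.Work.MP_547619_kz.B_TUT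

/-!
# MP_547619_co, THEOREM K14: all blocks together
-/

set_option autoImplicit false

namespace Frag.K4

open Frag.Kz

theorem g_PCE : S_PCE := p_PCE p_FAM p_PCN

theorem g_COL : S_COL := p_COL g_PCE

theorem g_SYS : S_SYS := p_SYS g_COL p_PRV

theorem g_ESZ : S_ESZ := p_ESZ p_DSP p_NBT p_EDZ

theorem g_ST1 : S_ST1 := p_ST1 p_DSP p_NBT

theorem g_ST2 : S_ST2 := p_ST2 p_DSP p_NBT

theorem g_CLC : S_CLC := p_CLC p_CT1 p_DSP p_DCS p_LBD p_NBT g_ESZ p_DZZ p_AR g_ST1 g_ST2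

theorem g_CHG : S_CHG := p_CHG p_DSP

theorem g_BAR : S_BAR := p_BAR p_CT1 p_DSP p_DCS g_CLC g_CHG

theorem g_MAT : S_MAT := p_MAT g_BAR p_TUT

theorem g_KPT : S_KPT := p_KPT p_KPF

theorem g_TRM : S_TRM := p_TRM g_SYS g_MAT p_CHO g_KPT

theorem g_IND : S_IND := p_IND p_KSM p_KUN p_HER g_TRM

theorem g_UPP : S_UPP := p_UPP p_KTW g_IND p_GUN

theorem k14_value : fragCoeff K14 = 1 / 3 := value g_UPP p_LOK

theorem k14_upper (ε : ℝ) (hε : 0 < ε) : ∃ k : ℕ, ∀ (n : ℕ) (G : SimpleGraph (Fin n)),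
    K14 n G → ∃ S : Finset (Fin n), (S.card : ℝ) ≤ (G.edgeSet.ncard : ℝ) / 6 + ε * n ∧
      TreeWidthLE (G.induce {v | v ∉ S}) k := upper g_UPP ε hε

end Frag.K4
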